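import Mathlib

/-! Tilings of the integers: basic definitions, periodicity of complements. -/

namespace Pool.Agent.TilePer

/-- `A ⊕ B = ℤ`. -/
def Tiles (A : Finset ℤ) (B : Set ℤ) : Prop :=
  ∀ n : ℤ, ∃! p : ℤ × ℤ, p.1 ∈ A ∧ p.2 ∈ B ∧ p.1 + p.2 = n

/-- `B` has period `m ≥ 1`. -/
def IsPeriod (B : Set ℤ) (m : ℕ) : Prop :=
  0 < m ∧ ∀ x : ℤ, x + m ∈ B ↔ x ∈ B

theorem Tiles.exists {A : Finset ℤ} {B : Set ℤ} (h : Tiles A B) (n : ℤ) :
    ∃ a ∈ A, n - a ∈ B := by
  obtain ⟨p, ⟨h1, h2, h3⟩, -⟩ := h n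
  refine ⟨p.1, h1, ?_⟩
  have : n - p.1 = p.2 := by linarith
  rw [this]; exact h2

theorem Tiles.unique {A : Finset ℤ} {B : Set ℤ} (h : Tiles A B) {a a' b b' : ℤ}
    (ha : a ∈ A) (ha' : a' ∈ A) (hb : b ∈ B) (hb' : b' ∈ B) (e : a + b = a' + b') :
    a = a' := by
  obtain ⟨p, -, hu⟩ := h (a + b)
  have h1 := hu (a, b) ⟨ha, hb, rfl⟩
  have h2 := hu (a', b') ⟨ha', hb', e.symm⟩
  have := h1.trans h2.symm
  exact congrArg Prod.fst this

theorem Tiles.mk' {A : Finset ℤ} {B : Set ℤ} (h1 : ∀ n : ℤ, ∃ a ∈ A, n - a ∈ B)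
    (h2 : ∀ a ∈ A, ∀ a' ∈ A, ∀ b ∈ B, ∀ b' ∈ B, a + b = a' + b' → a = a') : Tiles A B := by
  intro n
  obtain ⟨a, ha, hb⟩ := h1 n
  refine ⟨(a, n - a), ⟨ha, hb, by simp⟩, ?_⟩
  rintro ⟨a', b'⟩ ⟨ha', hb', e⟩
  simp only at ha' hb' e
  have : a' = a := h2 a' ha' a ha b' hb' (n - a) hb (by linarith)
  subst this
  ext <;> simp; linarith

theorem Tiles.nonempty {A : Finset ℤ} {B : Set ℤ} (h : Tiles A B) : A.Nonempty := by
  obtain ⟨a, ha, -⟩ := h.exists 0
  exact ⟨a, ha⟩

theorem IsPeriod.int {B : Set ℤ} {m : ℕ} (h : IsPeriod B m) (k x : ℤ) :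
    x + k * m ∈ B ↔ x ∈ B := by
  induction k using Int.induction_on with
  | zero => simp
  | succ i ih =>
    rw [← ih, ← h.2 (x + i * m)]
    have : x + (i + 1 : ℤ) * m = x + i * m + m := by ring
    rw [this]
  | pred i ih =>
    rw [← ih, ← h.2 (x + (-i - 1 : ℤ) * m)]
    have : x + (-i - 1 : ℤ) * m + m = x + (-i : ℤ) * m := by ring
    rw [this]

theorem IsPeriod.modEq {B : Set ℤ} {m : ℕ} (h : IsPeriod B m) {x y : ℤ}
    (e : x ≡ y [ZMOD m]) : x ∈ B ↔ y ∈ B := by
  obtain ⟨k, hk⟩ := e.dvd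
  have : y = x + k * m := by linarith
  rw [this, h.int]

/-- Newman: complements of finite sets are periodic. -/
theorem Tiles.periodic {A : Finset ℤ} {B : Set ℤ} (h : Tiles A B) : ∃ m, IsPeriod B m := by
  classical
  have hne := h.nonempty
  set mn := A.min' hne with hmn
  set mx := A.max' hne with hmx
  have hle : mn ≤ mx := A.min'_le_max' hne
  obtain ⟨D, hD⟩ : ∃ D : ℕ, (D : ℤ) = mx - mn := ⟨(mx - mn).toNat, by omega⟩
  -- forward determinism
  have hf : ∀ n : ℤ, n ∈ B ↔ ∀ a ∈ A, a ≠ mn → n - (a - mn) ∉ B := by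
    intro n
    constructor
    · intro hn a ha hane hmem
      apply hane
      exact h.unique ha (A.min'_mem hne) hmem hn (by ring)
    · intro hall
      obtain ⟨a, ha, hb⟩ := h.exists (n + mn)
      by_cases hane : a = mn
      · subst hane
        have e : n + mn - mn = n := by ring
        rw [e] at hb
        exact hb
      · exfalso
        refine hall a ha hane ?_
        have e : n - (a - mn) = n + mn - a := by ring
        rw [e]; exact hb
  have hb : ∀ n : ℤ, n ∈ B ↔ ∀ a ∈ A, a ≠ mx → n + (mx - a) ∉ B := by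
    intro n
    constructor
    · intro hn a ha hane hmem
      apply hane
      exact h.unique ha (A.max'_mem hne) hmem hn (by ring)
    · intro hall
      obtain ⟨a, ha, hb⟩ := h.exists (n + mx)
      by_cases hane : a = mx
      · subst hane
        simpa using hb
      · exfalso
        refine hall a ha hane ?_
        have e : n + (mx - a) = n + mx - a := by ring
        rw [e]; exact hb
  -- windows
  obtain ⟨i, j, hij, hw⟩ := Finite.exists_ne_map_eq_of_infinite
    (fun (i : ℕ) (k : Fin D) => (decide (((i : ℤ) + (k : ℕ)) ∈ B) : Bool))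
  wlog hlt : i < j generalizing i j
  · exact this j i hij.symm hw.symm (lt_of_le_of_ne (not_lt.1 hlt) hij.symm)
  obtain ⟨p, hp⟩ : ∃ p : ℕ, j = i + p := ⟨j - i, by omega⟩
  have hp0 : 0 < p := by omega
  have hwin : ∀ k : ℕ, k < D → (((i : ℤ) + k) ∈ B ↔ ((i : ℤ) + k + p) ∈ B) := by
    intro k hk
    have := congrFun hw ⟨k, hk⟩
    simp only [decide_eq_decide] at this
    rw [this, hp]
    push_cast
    have e : (i : ℤ) + p + k = i + k + p := by ring
    rw [e]
  -- forward
  have hfw : ∀ k : ℕ, (((i : ℤ) + k) ∈ B ↔ ((i : ℤ) + k + p) ∈ B) := by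
    intro k
    induction k using Nat.strong_induction_on with
    | _ k ih =>
      by_cases hk : k < D
      · exact hwin k hk
      · rw [hf ((i : ℤ) + k), hf ((i : ℤ) + k + p)]
        refine forall₂_congr fun a ha => ?_
        by_cases hane : a = mn
        · simp [hane]
        · have h1 : mn < a := lt_of_le_of_ne (A.min'_le a ha) (Ne.symm hane)
          have h2 : a ≤ mx := A.le_max' a ha
          obtain ⟨t, ht⟩ : ∃ t : ℕ, (t : ℤ) = k - (a - mn) := ⟨((k : ℤ) - (a - mn)).toNat, by omega⟩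
          have htk : t < k := by omega
          have := ih t htk
          have e1 : (i : ℤ) + k - (a - mn) = i + t := by rw [ht]; ring
          have e2 : (i : ℤ) + k + p - (a - mn) = i + t + p := by rw [ht]; ring
          rw [e1, e2, this]
  have hbw : ∀ k : ℕ, (((i : ℤ) - k) ∈ B ↔ ((i : ℤ) - k + p) ∈ B) := by
    intro k
    induction k using Nat.strong_induction_on with
    | _ k ih =>
      rcases Nat.eq_zero_or_pos k with rfl | hkpos
      · simpa using hfw 0
      · rw [hb ((i : ℤ) - k), hb ((i : ℤ) - k + p)]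
        refine forall₂_congr fun a ha => ?_
        by_cases hane : a = mx
        · simp [hane]
        · have h1 : a < mx := lt_of_le_of_ne (A.le_max' a ha) hane
          have h2 : mn ≤ a := A.min'_le a ha
          by_cases hc : (k : ℤ) ≤ mx - a
          · obtain ⟨t, ht⟩ : ∃ t : ℕ, (t : ℤ) = mx - a - k := ⟨(mx - a - k).toNat, by omega⟩
            have := hfw t
            have e1 : (i : ℤ) - k + (mx - a) = i + t := by rw [ht]; ring
            have e2 : (i : ℤ) - k + p + (mx - a) = i + t + p := by rw [ht]; ring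
            rw [e1, e2, this]
          · obtain ⟨t, ht⟩ : ∃ t : ℕ, (t : ℤ) = k - (mx - a) := ⟨((k : ℤ) - (mx - a)).toNat, by omega⟩
            have := ih t (by omega)
            have e1 : (i : ℤ) - k + (mx - a) = i - t := by rw [ht]; ring
            have e2 : (i : ℤ) - k + p + (mx - a) = i - t + p := by rw [ht]; ring
            rw [e1, e2, this]
  refine ⟨p, hp0, fun x => ?_⟩
  rcases le_total (i : ℤ) x with hx | hx
  · obtain ⟨t, ht⟩ : ∃ t : ℕ, (t : ℤ) = x - i := ⟨(x - i).toNat, by omega⟩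
    have := hfw t
    have e1 : (i : ℤ) + t = x := by rw [ht]; ring
    rw [e1] at this
    exact this.symm
  · obtain ⟨t, ht⟩ : ∃ t : ℕ, (t : ℤ) = i - x := ⟨((i : ℤ) - x).toNat, by omega⟩
    have := hbw t
    have e1 : (i : ℤ) - t = x := by rw [ht]; ring
    rw [e1] at this
    exact this.symm

end Pool.Agent.TilePer
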