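import Pool.Agent.TilePer.Tijdeman

/-! Prime powers exactly dividing the minimal period are at most twice the diameter. -/

namespace Pool.Agent.TilePer

open Finset Polynomial

theorem Tiles.exists_root {A : Finset ℤ} {B : Set ℤ} {N δ p : ℕ} (h : Tiles A B)
    (hmin : IsLeast {k : ℕ | IsPeriod B k} N) (hδ : N = p * δ) (hp : p.Prime) :
    ∃ ζ : ℂ, ζ ^ N = 1 ∧ ζ ^ δ ≠ 1 ∧ ∑ a ∈ A, ζ ^ (a : ℤ) = 0 := by
  have hB := hmin.1
  have hN := hB.1
  haveI : NeZero N := ⟨hN.ne'⟩
  have hδ0 : 0 < δ := by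
    rcases Nat.eq_zero_or_pos δ with h0 | h0
    · subst h0; simp at hδ; omega
    · exact h0
  by_contra hcon
  push Not at hcon
  let ψ : AddChar (ZMod N) ℂ := ZMod.stdAddChar
  let f : ZMod N → ℂ := fun t => (ind B N t : ℂ)
  -- α(k) * 𝓕 f k = 0 for k ≠ 0
  have hα : ∀ k : ZMod N, (∑ a ∈ A, ψ (-((a : ZMod N) * k))) * (∑ j : ZMod N, ψ (-(j * k)) * f j)
      = ∑ y : ZMod N, ψ (-(y * k)) := by
    intro k
    rw [Finset.sum_mul]
    have : ∀ a ∈ A, ψ (-((a : ZMod N) * k)) * (∑ j : ZMod N, ψ (-(j * k)) * f j)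
        = ∑ y : ZMod N, ψ (-(y * k)) * f (y - a) := by
      intro a _
      rw [Finset.mul_sum]
      refine Fintype.sum_equiv (Equiv.addLeft (a : ZMod N)) _ _ ?_
      intro j
      simp only [Equiv.coe_addLeft, add_sub_cancel_left]
      rw [← mul_assoc, ← AddChar.map_add_eq_mul]
      congr 2
      ring
    rw [Finset.sum_congr rfl this, Finset.sum_comm]
    refine Finset.sum_congr rfl fun y _ => ?_
    rw [← Finset.mul_sum]
    have h1 := cnt_one h hB y
    unfold cnt at h1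
    have h2 : ∑ a ∈ A, f (y - (a : ZMod N)) = 1 := by
      have := congrArg (Nat.cast : ℕ → ℂ) h1
      simpa [f] using this
    rw [h2, mul_one]
  have hzero : ∀ k : ZMod N, k ≠ 0 → ∑ y : ZMod N, ψ (-(y * k)) = 0 := by
    intro k hk
    have := AddChar.sum_mulShift (R := ZMod N) (R' := ℂ) (ψ := ψ) (-k)
      (ZMod.isPrimitive_stdAddChar N)
    rw [if_neg (by simpa using hk)] at this
    rw [Nat.cast_zero] at this
    rw [← this]
    refine Finset.sum_congr rfl fun y _ => ?_
    congr 1; ring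
  have hpow : ∀ (k : ZMod N) (a : ℤ), ψ (-((a : ZMod N) * k)) = (ψ (-k)) ^ a := by
    intro k a
    rw [← AddChar.map_zsmul_eq_zpow]
    congr 1
    simp
  -- the key
  have hkey : ∀ k : ZMod N, (ψ ((δ : ZMod N) * k) - 1) * (∑ j : ZMod N, ψ (-(j * k)) * f j) = 0 := by
    intro k
    by_cases h1 : ψ ((δ : ZMod N) * k) = 1
    · rw [h1]; simp
    · have hk : k ≠ 0 := by
        rintro rfl
        apply h1; simp
      have h2 : (ψ (-k)) ^ N = 1 := by
        have := hpow k (N : ℤ)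
        rw [zpow_natCast] at this
        rw [← this]; simp
      have h3 : (ψ (-k)) ^ δ ≠ 1 := by
        intro h4
        apply h1
        have h5 := hpow k (δ : ℤ)
        rw [zpow_natCast, h4] at h5
        have h6 : ψ ((δ : ZMod N) * k) * ψ (-((δ : ZMod N) * k)) = 1 := by
          rw [← AddChar.map_add_eq_mul]; simp
        rw [Int.cast_natCast] at h5
        rw [h5, mul_one] at h6
        exact h6
      have h4 := hcon _ h2 h3
      have h5 : (∑ a ∈ A, ψ (-((a : ZMod N) * k))) ≠ 0 := by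
        rw [Finset.sum_congr rfl fun a _ => hpow k a]
        exact h4
      have h6 := hα k
      rw [hzero k hk] at h6
      rcases mul_eq_zero.1 h6 with h7 | h7
      · exact absurd h7 h5
      · rw [h7, mul_zero]
  -- hence f is δ-periodic
  let g : ZMod N → ℂ := fun j => f (j + δ) - f j
  have hg : ZMod.dft g = 0 := by
    funext k
    rw [ZMod.dft_apply]
    simp only [Pi.zero_apply, g, smul_eq_mul]
    rw [← hkey k]
    have h1 : ∑ j : ZMod N, ψ (-(j * k)) * f (j + δ) = ψ ((δ : ZMod N) * k) *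
        ∑ j : ZMod N, ψ (-(j * k)) * f j := by
      rw [Finset.mul_sum]
      refine Fintype.sum_equiv (Equiv.addRight (δ : ZMod N)) _ _ ?_
      intro j
      simp only [Equiv.coe_addRight]
      rw [← mul_assoc, ← AddChar.map_add_eq_mul]
      congr 2
      ring
    rw [sub_mul, one_mul, ← h1, ← Finset.sum_sub_distrib]
    refine Finset.sum_congr rfl fun j _ => ?_
    ring
  have hg0 : g = 0 := by
    have := ZMod.dft.injective (a₁ := g) (a₂ := 0) (by rw [hg, map_zero])
    exact this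
  have hper : IsPeriod B δ := by
    refine ⟨hδ0, fun x => ?_⟩
    have := congrFun hg0 (x : ZMod N)
    simp only [g, f, Pi.zero_apply] at this
    have h1 : (ind B N ((x : ZMod N) + δ) : ℂ) = ind B N (x : ZMod N) := sub_eq_zero.1 this
    have h2 : ind B N ((x : ZMod N) + δ) = ind B N (x : ZMod N) := by exact_mod_cast h1
    rw [← ind_intCast hB, ← ind_intCast hB x]
    push_cast
    rw [h2]
  have hle : N ≤ δ := hmin.2 hper
  rw [hδ] at hle
  have := hp.one_lt
  nlinarith

theorem Tiles.prime_pow_le {A : Finset ℤ} {B : Set ℤ} {N p e d : ℕ} (h : Tiles A B)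
    (hmin : IsLeast {k : ℕ | IsPeriod B k} N) (hp : p.Prime) (hpe : p ^ (e + 1) ∣ N)
    (hpe' : ¬ p ^ (e + 2) ∣ N) (hd : ∀ a ∈ A, ∀ a' ∈ A, a - a' ≤ d) :
    p ^ (e + 1) ≤ 2 * d := by
  obtain ⟨N', hN'⟩ := hpe
  have hpN' : ¬ p ∣ N' := by
    rintro ⟨t, rfl⟩
    apply hpe'
    exact ⟨t, by rw [hN']; ring⟩
  have hN : 0 < N := hmin.1.1
  obtain ⟨ζ, h1, h2, h3⟩ := h.exists_root (δ := p ^ e * N') hmin (by rw [hN']; ring) hp
  set s := orderOf ζ with hs
  have hsN : s ∣ N := orderOf_dvd_of_pow_eq_one h1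
  have hs0 : 0 < s := Nat.pos_of_dvd_of_pos hsN hN
  have hsδ : ¬ s ∣ p ^ e * N' := fun hd => h2 (orderOf_dvd_iff_pow_eq_one.1 hd)
  have hps : p ^ (e + 1) ∣ s := by
    rw [hN'] at hsN
    obtain ⟨s1, s2, hs1, hs2, hss⟩ := (Nat.dvd_mul).1 hsN
    obtain ⟨j, hj, rfl⟩ := (Nat.dvd_prime_pow hp).1 hs1
    by_cases hje : j ≤ e
    · exfalso
      apply hsδ
      rw [← hss]
      exact Nat.mul_dvd_mul (pow_dvd_pow _ hje) hs2
    · have : j = e + 1 := by omega
      subst this
      rw [← hss]; exact Nat.dvd_mul_right _ _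
  have hζ0 : ζ ≠ 0 := by
    rintro rfl
    rw [zero_pow hN.ne'] at h1
    exact zero_ne_one h1
  have hprim : IsPrimitiveRoot ζ s := IsPrimitiveRoot.orderOf ζ
  -- the polynomial
  have hne := h.nonempty
  set a₀ := A.min' hne with ha₀
  let P : ℤ[X] := ∑ a ∈ A, X ^ (a - a₀).toNat
  have hP0 : P ≠ 0 := by
    intro hP
    have := congrArg (Polynomial.eval 1) hP
    simp [P, Polynomial.eval_finset_sum] at this
    exact hne.ne_empty this
  have hPζ : aeval ζ P = 0 := by
    simp only [P, map_sum, map_pow, aeval_X]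
    have : ∀ a ∈ A, ζ ^ (a - a₀).toNat = ζ ^ (-a₀) * ζ ^ a := by
      intro a ha
      have hle : a₀ ≤ a := A.min'_le a ha
      rw [← zpow_natCast, Int.toNat_of_nonneg (by linarith), ← zpow_add₀ hζ0]
      congr 1; ring
    rw [Finset.sum_congr rfl this, ← Finset.mul_sum, h3, mul_zero]
  have hdeg : P.natDegree ≤ d := by
    apply Polynomial.natDegree_sum_le_of_forall_le
    intro a ha
    rw [Polynomial.natDegree_X_pow]
    have := hd a ha a₀ (A.min'_mem hne)
    omega
  have hcyc : cyclotomic s ℤ ∣ P := by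
    rw [Polynomial.cyclotomic_eq_minpoly hprim hs0]
    exact minpoly.isIntegrallyClosed_dvd (hprim.isIntegral hs0) hPζ
  have hφ : Nat.totient s ≤ d := by
    have := Polynomial.natDegree_le_of_dvd hcyc hP0
    rw [Polynomial.natDegree_cyclotomic] at this
    exact this.trans hdeg
  have hφ2 : Nat.totient (p ^ (e + 1)) ≤ d := by
    have h5 := Nat.totient_dvd_of_dvd hps
    exact (Nat.le_of_dvd (Nat.totient_pos.2 hs0) h5).trans hφ
  rw [Nat.totient_prime_pow_succ hp] at hφ2
  have h6 : p ^ (e + 1) ≤ 2 * (p ^ e * (p - 1)) := by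
    have := hp.two_le
    obtain ⟨t, rfl⟩ : ∃ t, p = t + 2 := ⟨p - 2, by omega⟩
    have e1 : t + 2 - 1 = t + 1 := by omega
    rw [e1, pow_succ]
    nlinarith [pow_pos (show 0 < t + 2 by omega) e]
  omega

end Pool.Agent.TilePer
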