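import Pool.Agent.TilePer.Types
import Pool.Agent.TilePer.PPart

/-! Assembly: the finite bound for the minimal period. -/

namespace Pool.Agent.TilePer

open Finset

/-- number of `m ≤ d` all of whose primes divide `n` -/
noncomputable def smoothCount (n d : ℕ) : ℕ :=
  ((Finset.Icc 1 d).filter (fun m => m.primeFactors ⊆ n.primeFactors)).card

theorem Tiles.card_dvd {A : Finset ℤ} {B : Set ℤ} {N : ℕ} (h : Tiles A B) (hB : IsPeriod B N) :
    A.card ∣ N := by
  haveI : NeZero N := ⟨hB.1.ne'⟩
  exact ⟨_, (h.card_mul hB).symm⟩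

theorem Tiles.period_le {A : Finset ℤ} {B : Set ℤ} {N d : ℕ} (h : Tiles A B)
    (hmin : IsLeast {k : ℕ | IsPeriod B k} N) (hd : ∀ a ∈ A, ∀ a' ∈ A, a - a' ≤ d) :
    N ≤ (2 * d) ^ A.card.primeFactors.card * d ^ smoothCount A.card d := by
  classical
  have hN : 0 < N := hmin.1.1
  set n := A.card with hn
  have hne := h.nonempty
  have hn0 : n ≠ 0 := Finset.card_ne_zero.2 hne
  have hnN : n ∣ N := h.card_dvd hmin.1
  have hsub : n.primeFactors ⊆ N.primeFactors := Nat.primeFactors_mono hnN hN.ne'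
  set S := n.primeFactors with hS
  set U := N.primeFactors \ S with hU
  set g : ℕ → ℕ := fun p => p ^ N.factorization p with hg
  set M := ∏ p ∈ S, g p with hM
  set K := ∏ p ∈ U, g p with hK
  have hNMK : N = M * K := by
    rw [hM, hK, hU, mul_comm, Finset.prod_sdiff hsub]
    exact (Nat.prod_factorization_pow_eq_self hN.ne').symm
  have hcop : ∀ p ∈ N.primeFactors, ∀ q ∈ N.primeFactors, p ≠ q → Nat.Coprime (g p) (g q) := by
    intro p hp q hq hpq
    exact Nat.coprime_pow_primes _ _ (Nat.prime_of_mem_primeFactors hp)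
      (Nat.prime_of_mem_primeFactors hq) hpq
  have hMA : ∀ p : ℕ, p.Prime → p ∣ n → p ∣ M := by
    intro p hp hpn
    have hpS : p ∈ S := Nat.mem_primeFactors.2 ⟨hp, hpn, hn0⟩
    refine dvd_trans ?_ (Finset.dvd_prod_of_mem g hpS)
    have : N.factorization p ≠ 0 := by
      have := hp.factorization_pos_of_dvd hN.ne' (hpn.trans hnN)
      omega
    exact dvd_pow_self p this
  -- bound of M
  have hMle : M ≤ (2 * d) ^ S.card := by
    rw [hM, ← Finset.prod_const]
    apply Finset.prod_le_prod (fun _ _ => Nat.zero_le _)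
    intro p hp
    have hpp := Nat.prime_of_mem_primeFactors hp
    have hpos : 0 < N.factorization p :=
      hpp.factorization_pos_of_dvd hN.ne' ((Nat.dvd_of_mem_primeFactors hp).trans hnN)
    obtain ⟨e, he⟩ : ∃ e, N.factorization p = e + 1 := ⟨N.factorization p - 1, by omega⟩
    have h1 : p ^ (e + 1) ∣ N := by rw [← he]; exact Nat.ordProj_dvd N p
    have h2 : ¬ p ^ (e + 2) ∣ N := by
      have := Nat.pow_succ_factorization_not_dvd hN.ne' hpp
      rw [he] at this; exact this
    have := h.prime_pow_le hmin hpp h1 h2 hd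
    simp only [hg]; rw [he]; exact this
  -- types
  set T := A.offDiag.image (fun x => Int.gcd (x.1 - x.2) M) with hT
  have hchoice : ∀ m ∈ T, ∃ D : ℕ, D ≠ 0 ∧ D ≤ d ∧ ∃ a₁ ∈ A, ∃ a₂ ∈ A, D = (a₁ - a₂).natAbs ∧
      Int.gcd (a₁ - a₂) M = m := by
    intro m hm
    obtain ⟨⟨a₁, a₂⟩, hx, hxm⟩ := Finset.mem_image.1 hm
    obtain ⟨h1, h2, h3⟩ := Finset.mem_offDiag.1 hx
    refine ⟨(a₁ - a₂).natAbs, ?_, ?_, a₁, h1, a₂, h2, rfl, hxm⟩
    · have : a₁ - a₂ ≠ 0 := sub_ne_zero.2 h3
      exact Int.natAbs_ne_zero.2 this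
    · have e1 := hd _ h1 _ h2
      have e2 := hd _ h2 _ h1
      simp only at e1 e2
      omega
  choose! D hD0 hDd hD using hchoice
  have hKdvd : K ∣ ∏ m ∈ T, D m := by
    rw [hK]
    apply Finset.prod_dvd_of_isRelPrime
    · intro p hp q hq hpq
      rw [Function.onFun, ← Nat.coprime_iff_isRelPrime]
      exact hcop p (Finset.mem_sdiff.1 hp).1 q (Finset.mem_sdiff.1 hq).1 hpq
    · intro q hq
      obtain ⟨hqN, hqS⟩ := Finset.mem_sdiff.1 hq
      have hqp := Nat.prime_of_mem_primeFactors hqN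
      have hpos : 0 < N.factorization q :=
        hqp.factorization_pos_of_dvd hN.ne' (Nat.dvd_of_mem_primeFactors hqN)
      obtain ⟨f, hf⟩ : ∃ f, N.factorization q = f + 1 := ⟨N.factorization q - 1, by omega⟩
      set K' := ∏ p ∈ U.erase q, g p with hK'
      have hKK' : K = q ^ (f + 1) * K' := by
        rw [hK, hK', ← Finset.mul_prod_erase U g hq]
        simp only [hg]; rw [hf]
      have hqg : q ∣ g q := by
        simp only [hg]; exact dvd_pow_self q (by omega)
      have hMq : Nat.Coprime M q := by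
        apply Nat.Coprime.coprime_dvd_right hqg
        rw [hM]
        apply Nat.Coprime.prod_left
        intro p hp
        exact hcop p (hsub hp) q hqN (fun h => hqS (h ▸ hp))
      have hMK' : Nat.Coprime M K' := by
        rw [hM, hK']
        apply Nat.Coprime.prod_left
        intro p hp
        apply Nat.Coprime.prod_right
        intro r hr
        obtain ⟨hr1, hr2⟩ := Finset.mem_sdiff.1 (Finset.mem_of_mem_erase hr)
        exact hcop p (hsub hp) r hr1 (fun h => hr2 (h ▸ hp))
      have hqK' : Nat.Coprime q K' := by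
        apply Nat.Coprime.coprime_dvd_left hqg
        rw [hK']
        apply Nat.Coprime.prod_right
        intro r hr
        obtain ⟨hr1, hr2⟩ := Finset.mem_sdiff.1 (Finset.mem_of_mem_erase hr)
        exact hcop q hqN r hr1 (Finset.ne_of_mem_erase hr).symm
      obtain ⟨a, ha⟩ := hne
      obtain ⟨a', ha', hne', hall⟩ := h.type_claim hmin (by rw [hNMK, hKK']) hqp hMq hMK' hqK'
        hMA a ha
      have hmT : Int.gcd (a - a') M ∈ T := by
        rw [hT]
        exact Finset.mem_image.2 ⟨(a, a'), Finset.mem_offDiag.2 ⟨ha, ha', hne'.symm⟩, rfl⟩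
      refine dvd_trans ?_ (Finset.dvd_prod_of_mem D hmT)
      obtain ⟨a₁, h1, a₂, h2, h3, h4⟩ := hD _ hmT
      have h5 := hall a₁ h1 a₂ h2 h4
      rw [h3]
      simp only [hg]
      rw [hf]
      exact Int.natCast_dvd.1 h5
  have hKle : K ≤ d ^ T.card := by
    have h1 : ∏ m ∈ T, D m ≠ 0 := Finset.prod_ne_zero_iff.2 fun m hm => hD0 m hm
    refine (Nat.le_of_dvd (Nat.pos_of_ne_zero h1) hKdvd).trans ?_
    rw [← Finset.prod_const]
    exact Finset.prod_le_prod (fun _ _ => Nat.zero_le _) fun m hm => hDd m hm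
  have hTcard : T.card ≤ smoothCount n d := by
    unfold smoothCount
    apply Finset.card_le_card
    intro m hm
    have hD0' := hD0 m hm
    have hDd' := hDd m hm
    obtain ⟨a₁, h1, a₂, h2, h3, h4⟩ := hD m hm
    have hmD : m ∣ D m := by
      rw [h3, ← h4]
      exact Int.natCast_dvd.1 (Int.gcd_dvd_left _ _)
    have hmM : m ∣ M := by
      rw [← h4]
      exact_mod_cast (Int.gcd_dvd_right (a₁ - a₂) (M : ℤ))
    have hM0 : M ≠ 0 := by
      rintro h0
      rw [h0] at hNMK; simp at hNMK; omega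
    rw [Finset.mem_filter, Finset.mem_Icc]
    refine ⟨⟨Nat.pos_of_dvd_of_pos hmD (Nat.pos_of_ne_zero hD0'),
      (Nat.le_of_dvd (Nat.pos_of_ne_zero hD0') hmD).trans hDd'⟩, ?_⟩
    intro p hp
    have hpp := Nat.prime_of_mem_primeFactors hp
    have hpM : p ∣ M := (Nat.dvd_of_mem_primeFactors hp).trans hmM
    rw [hM] at hpM
    obtain ⟨r, hr, hpr⟩ := (Prime.dvd_finset_prod_iff hpp.prime g).1 hpM
    have : p = r := (Nat.prime_dvd_prime_iff_eq hpp (Nat.prime_of_mem_primeFactors hr)).1
      (hpp.dvd_of_dvd_pow hpr)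
    rw [this]; exact hr
  have hfin : d ^ T.card ≤ d ^ smoothCount n d := by
    rcases Nat.eq_zero_or_pos d with h0 | h0
    · -- d = 0: A has one element, no pairs
      have hT0 : T = ∅ := by
        rw [Finset.eq_empty_iff_forall_notMem]
        intro m hm
        have := hD0 m hm
        have := hDd m hm
        omega
      have : smoothCount n d = 0 := by
        unfold smoothCount
        rw [h0]; simp
      rw [this, hT0]; simp
    · exact Nat.pow_le_pow_right h0 hTcard
  calc N = M * K := hNMK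
    _ ≤ (2 * d) ^ S.card * d ^ smoothCount n d := Nat.mul_le_mul hMle (hKle.trans hfin)

end Pool.Agent.TilePer
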