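import Pool.Agent.TilePer.Slice

/-! Types of differences: the key congruence property. -/

namespace Pool.Agent.TilePer

open Finset

theorem exists_unit_mul {M : ℕ} (hM : 0 < M) {X Y : ℤ} (hg : Int.gcd X M = Int.gcd Y M) :
    ∃ c : ℕ, Nat.Coprime c M ∧ (c : ℤ) * X ≡ Y [ZMOD M] := by
  haveI : NeZero M := ⟨hM.ne'⟩
  set g := Int.gcd X M with hgdef
  have hg0 : 0 < g := Int.gcd_pos_of_ne_zero_right _ (by exact_mod_cast hM.ne')
  obtain ⟨X', hX⟩ : (g : ℤ) ∣ X := Int.gcd_dvd_left _ _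
  obtain ⟨Y', hY⟩ : (g : ℤ) ∣ Y := hg ▸ Int.gcd_dvd_left _ _
  obtain ⟨M', hM'⟩ : g ∣ M := by
    have : (g : ℤ) ∣ (M : ℤ) := Int.gcd_dvd_right _ _
    exact_mod_cast this
  have hM'0 : 0 < M' := by
    rcases Nat.eq_zero_or_pos M' with h | h
    · subst h; simp at hM'; omega
    · exact h
  haveI : NeZero M' := ⟨hM'0.ne'⟩
  have cX : IsCoprime X' (M' : ℤ) := by
    rw [Int.isCoprime_iff_gcd_eq_one]
    have h1 : Int.gcd ((g : ℤ) * X') ((g : ℤ) * M') = g * Int.gcd X' M' := by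
      rw [Int.gcd_mul_left]; simp
    have h2 : Int.gcd ((g : ℤ) * X') ((g : ℤ) * M') = g := by
      have : ((g : ℤ) * M') = (M : ℤ) := by rw [hM']; push_cast; ring
      rw [← hX, this]
    rw [h2] at h1
    have : g * 1 = g * Int.gcd X' M' := by rw [mul_one]; exact h1
    exact (Nat.eq_of_mul_eq_mul_left hg0 this).symm
  have cY : IsCoprime Y' (M' : ℤ) := by
    rw [Int.isCoprime_iff_gcd_eq_one]
    have h1 : Int.gcd ((g : ℤ) * Y') ((g : ℤ) * M') = g * Int.gcd Y' M' := by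
      rw [Int.gcd_mul_left]; simp
    have h2 : Int.gcd ((g : ℤ) * Y') ((g : ℤ) * M') = g := by
      have : ((g : ℤ) * M') = (M : ℤ) := by rw [hM']; push_cast; ring
      rw [← hY, this, ← hg]
    rw [h2] at h1
    have : g * 1 = g * Int.gcd Y' M' := by rw [mul_one]; exact h1
    exact (Nat.eq_of_mul_eq_mul_left hg0 this).symm
  have uX : IsUnit (X' : ZMod M') := (ZMod.coe_int_isUnit_iff_isCoprime _ _).2 cX.symm
  have uY : IsUnit (Y' : ZMod M') := (ZMod.coe_int_isUnit_iff_isCoprime _ _).2 cY.symm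
  obtain ⟨ux, hux⟩ := uX
  obtain ⟨uy, huy⟩ := uY
  have hdvd : M' ∣ M := ⟨g, by rw [hM']; ring⟩
  obtain ⟨v, hv⟩ := ZMod.unitsMap_surjective hdvd (uy * ux⁻¹)
  refine ⟨(v : ZMod M).val, ZMod.val_coe_unit_coprime v, ?_⟩
  have h1 : (((v : ZMod M).val : ℤ) * X') ≡ Y' [ZMOD M'] := by
    rw [← ZMod.intCast_eq_intCast_iff]
    push_cast
    have h2 : (((v : ZMod M).val : ℕ) : ZMod M') = ((uy * ux⁻¹ : (ZMod M')ˣ) : ZMod M') := by
      rw [← hv, ZMod.unitsMap_val]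
      rw [ZMod.cast_eq_val]
    rw [h2, ← hux, ← huy]
    simp [mul_assoc]
  obtain ⟨k, hk⟩ := h1.dvd
  rw [Int.modEq_iff_dvd]
  refine ⟨k, ?_⟩
  rw [hX, hY]
  have : (g : ℤ) * Y' - ((v : ZMod M).val : ℤ) * (g * X') = g * (Y' - ((v : ZMod M).val : ℤ) * X') := by
    ring
  rw [this, hk]
  have h5 : (M : ℤ) = g * M' := by exact_mod_cast hM'
  generalize (M : ℤ) = z at h5 ⊢
  rw [h5]; ring

theorem exists_mul_pow {q f : ℕ} (hq : q.Prime) {X D : ℤ} (hX : ¬ ((q ^ (f + 1) : ℕ) : ℤ) ∣ X)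
    (hD : ((q ^ f : ℕ) : ℤ) ∣ D) : ∃ c : ℕ, (c : ℤ) * X ≡ D [ZMOD ((q ^ (f + 1) : ℕ) : ℤ)] := by
  -- gcd X (q^(f+1)) divides q^f
  have hg : Int.gcd X ((q ^ (f + 1) : ℕ) : ℤ) ∣ q ^ f := by
    have h1 : Int.gcd X ((q ^ (f + 1) : ℕ) : ℤ) ∣ q ^ (f + 1) := by
      have : ((Int.gcd X ((q ^ (f + 1) : ℕ) : ℤ) : ℕ) : ℤ) ∣ ((q ^ (f + 1) : ℕ) : ℤ) :=
        Int.gcd_dvd_right _ _
      exact_mod_cast this
    obtain ⟨j, hj, hjj⟩ := (Nat.dvd_prime_pow hq).1 h1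
    rw [hjj]
    apply pow_dvd_pow
    by_contra hc
    have : j = f + 1 := by omega
    subst this
    apply hX
    rw [← hjj]
    exact Int.gcd_dvd_left _ _
  have hgD : ((Int.gcd X ((q ^ (f + 1) : ℕ) : ℤ) : ℕ) : ℤ) ∣ D :=
    (Int.natCast_dvd_natCast.2 hg).trans hD
  obtain ⟨D', hD'⟩ := hgD
  have hb := Int.gcd_eq_gcd_ab X ((q ^ (f + 1) : ℕ) : ℤ)
  set s := Int.gcdA X ((q ^ (f + 1) : ℕ) : ℤ)
  set t := Int.gcdB X ((q ^ (f + 1) : ℕ) : ℤ)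
  set Q : ℤ := ((q ^ (f + 1) : ℕ) : ℤ) with hQ
  have hQ0 : 0 < Q := by rw [hQ]; exact_mod_cast pow_pos hq.pos _
  refine ⟨((s * D') % Q).toNat, ?_⟩
  have h0 : 0 ≤ (s * D') % Q := Int.emod_nonneg _ hQ0.ne'
  rw [Int.toNat_of_nonneg h0]
  have h2 : (s * D') % Q * X ≡ s * D' * X [ZMOD Q] := by
    apply Int.ModEq.mul_right
    exact Int.mod_modEq _ _
  refine h2.trans ?_
  rw [Int.modEq_iff_dvd]
  refine ⟨t * D', ?_⟩
  have : D - s * D' * X = ((X * s + Q * t) - s * X) * D' := by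
    rw [hD', hb]; ring
  rw [this]; ring

end Pool.Agent.TilePer
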