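import Pool.Agent.TilePer.Assemble

/-! Rankin's bound for the number of types. -/

namespace Pool.Agent.TilePer

open Finset Real

/-- Rankin: the number of `m ≤ d` supported on the primes of `n` -/
theorem smoothCount_le {n d : ℕ} (hd : 1 ≤ d) {σ : ℝ} (hσ : 0 < σ) :
    (smoothCount n d : ℝ) ≤ (d : ℝ) ^ σ * ∏ p ∈ n.primeFactors, (1 - (p : ℝ) ^ (-σ))⁻¹ := by
  -- the completely multiplicative function m ↦ m^(-σ)
  let F : ℕ →* ℝ :=
    { toFun := fun m => (m : ℝ) ^ (-σ)
      map_one' := by simp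
      map_mul' := fun a b => by
        push_cast
        exact Real.mul_rpow (Nat.cast_nonneg _) (Nat.cast_nonneg _) }
  have hFdef : ∀ m : ℕ, F m = (m : ℝ) ^ (-σ) := fun m => rfl
  have hF : ∀ {p : ℕ}, p.Prime → ‖F p‖ < 1 := by
    intro p hp
    have h1 : (1 : ℝ) < p := by exact_mod_cast hp.one_lt
    rw [hFdef, Real.norm_of_nonneg (Real.rpow_nonneg (Nat.cast_nonneg _) _)]
    exact Real.rpow_lt_one_of_one_lt_of_neg h1 (by linarith)
  obtain ⟨-, key⟩ := EulerProduct.summable_and_hasSum_factoredNumbers_prod_filter_prime_geometric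
    (f := F) hF n.primeFactors
  have hfil : n.primeFactors.filter Nat.Prime = n.primeFactors :=
    Finset.filter_true_of_mem fun p hp => Nat.prime_of_mem_primeFactors hp
  rw [hfil] at key
  set W := (Finset.Icc 1 d).filter (fun m => m.primeFactors ⊆ n.primeFactors) with hW
  have hmem : ∀ m ∈ W, m ∈ Nat.factoredNumbers n.primeFactors := by
    intro m hm
    obtain ⟨h1, h2⟩ := Finset.mem_filter.1 hm
    have h3 := (Finset.mem_Icc.1 h1).1
    refine ⟨by omega, fun p hp => h2 ?_⟩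
    exact List.mem_toFinset.2 hp
  let ι : {x // x ∈ W} ↪ Nat.factoredNumbers n.primeFactors :=
    ⟨fun x => ⟨x.1, hmem x.1 x.2⟩, fun x y hxy => by
      have := congrArg Subtype.val hxy
      exact Subtype.ext this⟩
  have hle := sum_le_hasSum (W.attach.map ι)
    (fun m _ => by rw [hFdef]; exact Real.rpow_nonneg (Nat.cast_nonneg _) _) key
  rw [Finset.sum_map] at hle
  have hsum : (W.card : ℝ) * (d : ℝ) ^ (-σ) ≤ ∑ x ∈ W.attach, F (ι x) := by
    have : ∀ x ∈ W.attach, (d : ℝ) ^ (-σ) ≤ F (ι x) := by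
      intro x _
      rw [hFdef]
      have h1 := Finset.mem_Icc.1 (Finset.mem_filter.1 x.2).1
      have h2 : (0 : ℝ) < ((x : ℕ) : ℝ) := by exact_mod_cast h1.1
      exact Real.rpow_le_rpow_of_nonpos h2 (by exact_mod_cast h1.2) (by linarith)
    have := Finset.sum_le_sum this
    simpa using this
  have h3 : (W.card : ℝ) * (d : ℝ) ^ (-σ) ≤ ∏ p ∈ n.primeFactors, (1 - (p : ℝ) ^ (-σ))⁻¹ := by
    refine (hsum.trans hle).trans (le_of_eq ?_)
    rfl
  have hd0 : (0 : ℝ) < d := by exact_mod_cast hd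
  have h4 : (smoothCount n d : ℝ) = W.card := rfl
  rw [h4]
  have h5 : (d : ℝ) ^ σ * (d : ℝ) ^ (-σ) = 1 := by
    rw [← Real.rpow_add hd0]; simp
  calc (W.card : ℝ) = (d : ℝ) ^ σ * ((W.card : ℝ) * (d : ℝ) ^ (-σ)) := by
        rw [mul_left_comm, h5, mul_one]
    _ ≤ _ := mul_le_mul_of_nonneg_left h3 (Real.rpow_nonneg hd0.le _)

/-- bound of one Euler factor, any prime -/
theorem factor_le_two_div {p : ℕ} (hp : 2 ≤ p) {σ : ℝ} (hσ : 0 < σ) (hσ1 : σ ≤ 1) :
    (1 - (p : ℝ) ^ (-σ))⁻¹ ≤ 2 / σ := by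
  have h2 : (p : ℝ) ^ (-σ) ≤ (2 : ℝ) ^ (-σ) :=
    Real.rpow_le_rpow_of_nonpos (by norm_num) (by exact_mod_cast hp) (by linarith)
  -- convexity: 2^(-σ) ≤ 1 - σ/2
  have hconv : (2 : ℝ) ^ (-σ) ≤ 1 - σ / 2 := by
    have hc := (convexOn_exp).2 (Set.mem_univ (0 : ℝ)) (Set.mem_univ (-Real.log 2))
      (show (0 : ℝ) ≤ 1 - σ by linarith) hσ.le (show (1 - σ) + σ = 1 by ring)
    simp only [smul_eq_mul, mul_zero, zero_add, Real.exp_zero, mul_one] at hc
    have e1 : Real.exp (-Real.log 2) = 1 / 2 := by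
      rw [Real.exp_neg, Real.exp_log (by norm_num)]; norm_num
    rw [e1] at hc
    have e2 : (2 : ℝ) ^ (-σ) = Real.exp (σ * -Real.log 2) := by
      rw [Real.rpow_def_of_pos (by norm_num)]; congr 1; ring
    rw [e2]; linarith
  have h3 : σ / 2 ≤ 1 - (p : ℝ) ^ (-σ) := by linarith
  have h4 : (0 : ℝ) < σ / 2 := by positivity
  calc (1 - (p : ℝ) ^ (-σ))⁻¹ ≤ (σ / 2)⁻¹ := inv_anti₀ h4 h3
    _ = 2 / σ := by rw [inv_div]

theorem prod_primeFactors_le {n : ℕ} (hn : n ≠ 0) (S : Finset ℕ) (hS : S ⊆ n.primeFactors) :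
    ∏ p ∈ S, p ≤ n := by
  refine Nat.le_of_dvd (Nat.pos_of_ne_zero hn) ?_
  exact (Finset.prod_dvd_prod_of_subset _ _ _ hS).trans (Nat.prod_primeFactors_dvd n)

theorem smoothCount_explicit {n d : ℕ} (hn : n ≠ 0) (hnd : n ≤ d ^ 2) {x z : ℝ}
    (hx : x = Real.log d) (hz : z = Real.log x) (hz1 : 1 ≤ z) :
    (smoothCount n d : ℝ) ≤ Real.exp (21 * (x / z)) := by
  have hz0 : 0 < z := by linarith
  have hx1 : 0 < x := by
    by_contra hc
    have hx0 : 0 ≤ x := by
      rw [hx]; exact Real.log_natCast_nonneg d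
    have : x = 0 := le_antisymm (not_lt.1 hc) hx0
    rw [this, Real.log_zero] at hz
    linarith
  have hxe : x = Real.exp z := by rw [hz, Real.exp_log hx1]
  have hd1 : 1 ≤ d := by
    rcases Nat.eq_zero_or_pos d with h0 | h0
    · subst h0; simp at hx; linarith
    · exact h0
  have hd0 : (0 : ℝ) < d := by exact_mod_cast hd1
  set σ : ℝ := 1 / z with hσ
  have hσ0 : 0 < σ := by positivity
  have hσ1 : σ ≤ 1 := by rw [hσ, div_le_one hz0]; exact hz1
  set y : ℝ := Real.exp (z / 2) with hy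
  have hy0 : 0 < y := Real.exp_pos _
  set S := n.primeFactors with hS
  set S₁ := S.filter (fun p : ℕ => (p : ℝ) ≤ y) with hS₁
  set S₂ := S.filter (fun p : ℕ => ¬ (p : ℝ) ≤ y) with hS₂
  -- card S₁ ≤ y
  have hc1 : (S₁.card : ℝ) ≤ y := by
    have hsub : S₁ ⊆ Finset.Icc 1 ⌊y⌋₊ := by
      intro p hp
      obtain ⟨h1, h2⟩ := Finset.mem_filter.1 hp
      have := (Nat.prime_of_mem_primeFactors h1).one_le
      exact Finset.mem_Icc.2 ⟨this, Nat.le_floor h2⟩
    have := Finset.card_le_card hsub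
    rw [Nat.card_Icc] at this
    have h3 : S₁.card ≤ ⌊y⌋₊ := by omega
    exact (Nat.cast_le.2 h3).trans (Nat.floor_le hy0.le)
  -- card S₂ ≤ 4 x / z
  have hc2 : (S₂.card : ℝ) ≤ 4 * (x / z) := by
    have h1 := prod_primeFactors_le hn S₂ (Finset.filter_subset _ _)
    have h2 : y ^ S₂.card ≤ ((∏ p ∈ S₂, p : ℕ) : ℝ) := by
      push_cast
      rw [← Finset.prod_const]
      apply Finset.prod_le_prod (fun _ _ => hy0.le)
      intro p hp
      exact (not_le.1 (Finset.mem_filter.1 hp).2).le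
    have h3 : y ^ S₂.card ≤ (d : ℝ) ^ 2 := by
      refine h2.trans ?_
      exact_mod_cast h1.trans hnd
    have h4 := Real.log_le_log (pow_pos hy0 _) h3
    rw [Real.log_pow, Real.log_pow, hy, Real.log_exp, ← hx] at h4
    rw [mul_div_assoc', le_div_iff₀ hz0]
    push_cast at h4
    linarith
  -- product over S
  have hprod : ∏ p ∈ S, (1 - (p : ℝ) ^ (-σ))⁻¹ ≤
      Real.exp (16 * (x / z)) * Real.exp (4 * (x / z)) := by
    rw [← Finset.prod_filter_mul_prod_filter_not S (fun p : ℕ => (p : ℝ) ≤ y)]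
    apply mul_le_mul
    · -- small primes
      have h1 : ∏ p ∈ S₁, (1 - (p : ℝ) ^ (-σ))⁻¹ ≤ ∏ _p ∈ S₁, (2 / σ) := by
        apply Finset.prod_le_prod
        · intro p hp
          have hpp := Nat.prime_of_mem_primeFactors (Finset.mem_filter.1 hp).1
          have : (p : ℝ) ^ (-σ) < 1 :=
            Real.rpow_lt_one_of_one_lt_of_neg (by exact_mod_cast hpp.one_lt) (by linarith)
          exact inv_nonneg.2 (by linarith)
        · intro p hp
          have hpp := Nat.prime_of_mem_primeFactors (Finset.mem_filter.1 hp).1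
          exact factor_le_two_div hpp.two_le hσ0 hσ1
      refine h1.trans ?_
      rw [Finset.prod_const]
      have h2 : 2 / σ = 2 * z := by rw [hσ]; field_simp
      rw [h2]
      have h3 : (2 * z) ^ S₁.card = Real.exp (S₁.card * Real.log (2 * z)) := by
        rw [Real.exp_nat_mul, Real.exp_log (by positivity)]
      rw [h3]
      apply Real.exp_le_exp.2
      have hl0 : 0 ≤ Real.log (2 * z) := Real.log_nonneg (by linarith)
      have hl1 : Real.log (2 * z) ≤ 2 * z := by
        have := Real.log_le_sub_one_of_pos (show 0 < 2 * z by positivity)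
        linarith
      have h5 : (S₁.card : ℝ) * Real.log (2 * z) ≤ y * (2 * z) :=
        mul_le_mul hc1 hl1 hl0 hy0.le
      refine h5.trans ?_
      have h6 : z ^ 2 / 8 ≤ y := by
        have := Real.quadratic_le_exp_of_nonneg (show 0 ≤ z / 2 by positivity)
        rw [hy]; nlinarith
      have h7 : x = y * y := by
        rw [hxe, hy, ← Real.exp_add]; congr 1; ring
      rw [mul_div_assoc', le_div_iff₀ hz0, h7]
      nlinarith
    · have h1 : ∏ p ∈ S₂, (1 - (p : ℝ) ^ (-σ))⁻¹ ≤ ∏ _p ∈ S₂, Real.exp 1 := by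
        apply Finset.prod_le_prod
        · intro p hp
          have hpp := Nat.prime_of_mem_primeFactors (Finset.mem_filter.1 hp).1
          have : (p : ℝ) ^ (-σ) < 1 :=
            Real.rpow_lt_one_of_one_lt_of_neg (by exact_mod_cast hpp.one_lt) (by linarith)
          exact inv_nonneg.2 (by linarith)
        · intro p hp
          have hyp : y < p := not_le.1 (Finset.mem_filter.1 hp).2
          have h2 : (p : ℝ) ^ (-σ) ≤ y ^ (-σ) :=
            Real.rpow_le_rpow_of_nonpos hy0 hyp.le (by linarith)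
          have h3 : y ^ (-σ) = Real.exp (-(1 / 2)) := by
            rw [hy, ← Real.exp_mul, hσ]
            congr 1
            field_simp
          rw [h3] at h2
          have h4 : Real.exp (-(1 / 2)) ≤ 0.61 := by
            have e1 : (1.6487 : ℝ) ≤ Real.exp (1 / 2) := by
              have := Real.exp_one_gt_d9
              have e2 : Real.exp (1 / 2) * Real.exp (1 / 2) = Real.exp 1 := by
                rw [← Real.exp_add]; norm_num
              nlinarith [Real.exp_pos (1 / 2 : ℝ)]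
            rw [Real.exp_neg]
            calc (Real.exp (1 / 2))⁻¹ ≤ (1.6487 : ℝ)⁻¹ := inv_anti₀ (by norm_num) e1
              _ ≤ 0.61 := by norm_num
          have h5 : (0.39 : ℝ) ≤ 1 - (p : ℝ) ^ (-σ) := by linarith
          calc (1 - (p : ℝ) ^ (-σ))⁻¹ ≤ (0.39 : ℝ)⁻¹ := inv_anti₀ (by norm_num) h5
            _ ≤ 2.7 := by norm_num
            _ ≤ Real.exp 1 := by have := Real.exp_one_gt_d9; linarith
      refine h1.trans ?_
      rw [Finset.prod_const, ← Real.exp_nat_mul, mul_one]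
      exact Real.exp_le_exp.2 hc2
    · apply Finset.prod_nonneg
      intro p hp
      have hpp := Nat.prime_of_mem_primeFactors (Finset.mem_filter.1 hp).1
      have : (p : ℝ) ^ (-σ) < 1 :=
        Real.rpow_lt_one_of_one_lt_of_neg (by exact_mod_cast hpp.one_lt) (by linarith)
      exact inv_nonneg.2 (by linarith)
    · exact (Real.exp_pos _).le
  have hmain := smoothCount_le (n := n) hd1 hσ0
  refine hmain.trans ?_
  have h1 : (d : ℝ) ^ σ = Real.exp (x / z) := by
    rw [Real.rpow_def_of_pos hd0, ← hx, hσ]; congr 1; ring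
  rw [h1]
  calc Real.exp (x / z) * ∏ p ∈ S, (1 - (p : ℝ) ^ (-σ))⁻¹
      ≤ Real.exp (x / z) * (Real.exp (16 * (x / z)) * Real.exp (4 * (x / z))) :=
        mul_le_mul_of_nonneg_left hprod (Real.exp_pos _).le
    _ = Real.exp (21 * (x / z)) := by
        rw [← Real.exp_add, ← Real.exp_add]; congr 1; ring

end Pool.Agent.TilePer
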