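import Pool.Agent.TilePer.Count

/-! The asymptotic bound. -/

namespace Pool.Agent.TilePer

open Finset Real

theorem card_primeFactors_le {n : ℕ} (hn : n ≠ 0) : 2 ^ n.primeFactors.card ≤ n := by
  have h1 := prod_primeFactors_le hn n.primeFactors (Finset.Subset.refl _)
  refine le_trans ?_ h1
  rw [← Finset.prod_const]
  exact Finset.prod_le_prod (fun _ _ => Nat.zero_le _)
    fun p hp => (Nat.prime_of_mem_primeFactors hp).two_le

theorem log_bound {n d N : ℕ} (hn : n ≠ 0) (hN : N ≠ 0) (hnd : n ≤ d + 1) (hd : 16 ≤ d)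
    (h : N ≤ (2 * d) ^ n.primeFactors.card * d ^ smoothCount n d) :
    Real.log N ≤ Real.exp (24 * (Real.log d / Real.log (Real.log d))) := by
  set x : ℝ := Real.log d with hx
  set z : ℝ := Real.log x with hz
  have hd0 : (0 : ℝ) < d := by
    have : (16 : ℝ) ≤ d := by exact_mod_cast hd
    linarith
  have hlog2 : Real.log 2 ≤ 0.6931471808 := Real.log_two_lt_d9.le
  have hlog2' : 0.6931471803 ≤ Real.log 2 := Real.log_two_gt_d9.le
  have hxbig : (2.77 : ℝ) ≤ x := by
    have h1 : Real.log 16 ≤ x := Real.log_le_log (by norm_num) (by exact_mod_cast hd)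
    have h2 : Real.log 16 = 4 * Real.log 2 := by
      rw [show (16 : ℝ) = 2 ^ 4 by norm_num, Real.log_pow]; norm_num
    rw [h2] at h1; linarith
  have hx0 : 0 < x := by linarith
  have hz1 : 1 ≤ z := by
    rw [hz, Real.le_log_iff_exp_le hx0]
    have := Real.exp_one_lt_d9
    linarith
  have hz0 : 0 < z := by linarith
  have hxe : x = Real.exp z := by rw [hz, Real.exp_log hx0]
  have hnd2 : n ≤ d ^ 2 := by nlinarith
  have hS := smoothCount_explicit hn hnd2 hx hz hz1
  set u : ℝ := x / z with hu
  have hu1 : 1 ≤ u := by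
    rw [hu, le_div_iff₀ hz0, one_mul]
    have := Real.add_one_le_exp z
    rw [← hxe] at this; linarith
  -- x ≤ exp (2u)
  have hxu : x ≤ Real.exp (2 * u) := by
    rw [hxe]
    apply Real.exp_le_exp.2
    rw [hu, hxe, mul_div_assoc', le_div_iff₀ hz0]
    have := Real.quadratic_le_exp_of_nonneg hz0.le
    nlinarith
  -- number of primes
  have hω : (n.primeFactors.card : ℝ) ≤ 3 * x := by
    have h1 := card_primeFactors_le hn
    have h2 : ((2 : ℝ)) ^ n.primeFactors.card ≤ (d : ℝ) ^ 2 := by
      exact_mod_cast h1.trans hnd2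
    have h3 := Real.log_le_log (by positivity) h2
    rw [Real.log_pow, Real.log_pow, ← hx] at h3
    push_cast at h3
    by_contra hc
    push Not at hc
    have : 3 * x * Real.log 2 < (n.primeFactors.card : ℝ) * Real.log 2 :=
      mul_lt_mul_of_pos_right hc (by linarith)
    nlinarith
  have hlogN : Real.log N ≤ (n.primeFactors.card : ℝ) * (Real.log 2 + x) +
      (smoothCount n d : ℝ) * x := by
    have hN0 : (0 : ℝ) < N := by exact_mod_cast Nat.pos_of_ne_zero hN
    have h1 : (N : ℝ) ≤ (2 * (d : ℝ)) ^ n.primeFactors.card * (d : ℝ) ^ smoothCount n d := by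
      exact_mod_cast h
    have h2 := Real.log_le_log hN0 h1
    rw [Real.log_mul (by positivity) (by positivity), Real.log_pow, Real.log_pow,
      Real.log_mul (by norm_num) hd0.ne', ← hx] at h2
    exact h2
  have h6 : (6 : ℝ) ≤ Real.exp (2 * u) := by
    have h1 : Real.exp 2 ≤ Real.exp (2 * u) := Real.exp_le_exp.2 (by linarith)
    have h2 : Real.exp 2 = Real.exp 1 * Real.exp 1 := by rw [← Real.exp_add]; norm_num
    have := Real.exp_one_gt_d9
    nlinarith
  have hpart1 : (n.primeFactors.card : ℝ) * (Real.log 2 + x) ≤ Real.exp (6 * u) := by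
    have h1 : (n.primeFactors.card : ℝ) * (Real.log 2 + x) ≤ 3 * x * (2 * x) := by
      apply mul_le_mul hω (by linarith) (by linarith) (by linarith)
    have h2 : 3 * x * (2 * x) = 6 * (x * x) := by ring
    have h3 : x * x ≤ Real.exp (2 * u) * Real.exp (2 * u) :=
      mul_le_mul hxu hxu hx0.le (Real.exp_pos _).le
    have h4 : Real.exp (6 * u) = Real.exp (2 * u) * (Real.exp (2 * u) * Real.exp (2 * u)) := by
      rw [← Real.exp_add, ← Real.exp_add]; congr 1; ring
    rw [h4]
    refine h1.trans ?_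
    rw [h2]
    exact mul_le_mul h6 h3 (by positivity) (Real.exp_pos _).le
  have hpart2 : (smoothCount n d : ℝ) * x ≤ Real.exp (23 * u) := by
    have h4 : Real.exp (23 * u) = Real.exp (21 * u) * Real.exp (2 * u) := by
      rw [← Real.exp_add]; congr 1; ring
    rw [h4]
    exact mul_le_mul hS hxu hx0.le (Real.exp_pos _).le
  have h7 : Real.exp (6 * u) ≤ Real.exp (23 * u) := Real.exp_le_exp.2 (by linarith)
  have h8 : (2 : ℝ) ≤ Real.exp u := by
    have := Real.add_one_le_exp u
    linarith
  have h9 : Real.exp (24 * u) = Real.exp u * Real.exp (23 * u) := by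
    rw [← Real.exp_add]; congr 1; ring
  rw [h9]
  have h10 : 2 * Real.exp (23 * u) ≤ Real.exp u * Real.exp (23 * u) :=
    mul_le_mul_of_nonneg_right h8 (Real.exp_pos _).le
  linarith

end Pool.Agent.TilePer
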