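import Pool.Agent.TilePer.Assemble

/-! Tiles of prime power size: the minimal period of every complement is at most
`p / (p - 1)` times the diameter. -/

namespace Pool.Agent.TilePer

open Finset

/-- Sands: difference types of `A` and of a complement are disjoint -/
theorem Tiles.disj {A : Finset ℤ} {T : Set ℤ} {M : ℕ} (h : Tiles A T) (hT : IsPeriod T M)
    (hMA : ∀ p : ℕ, p.Prime → p ∣ A.card → p ∣ M) {a a' t t' : ℤ} (ha : a ∈ A) (ha' : a' ∈ A)
    (ht : t ∈ T) (ht' : t' ∈ T) (hg : Int.gcd (a - a') M = Int.gcd (t' - t) M) : a = a' := by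
  have hM := hT.1
  obtain ⟨c, hc, hcc⟩ := exists_unit_mul hM hg
  by_cases hc0 : c = 0
  · -- then M = 1
    subst hc0
    have hM1 : M = 1 := by simpa using hc
    subst hM1
    -- every integer is in T, so A is a singleton
    have hall : ∀ x : ℤ, x ∈ T := fun x => by
      have := (hT.modEq (x := t) (y := x) (by simp [Int.modEq_one])).1 ht
      exact this
    exact h.unique ha ha' (hall (a' - a + t)) ht (by ring) |> fun h => by
      have := h; exact this
  · have hcpos : 0 < c := Nat.pos_of_ne_zero hc0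
    have hcA := coprime_of_primes hMA hc
    have hTc := h.tijdeman hT hcpos hcA
    obtain ⟨k, hk⟩ := hcc.dvd
    have hfin := hTc.unique (Finset.mem_image_of_mem (fun a => (c : ℤ) * a) ha)
      (Finset.mem_image_of_mem (fun a => (c : ℤ) * a) ha')
      (b := t + k * (M : ℤ)) (b' := t') ((hT.int k t).2 ht) ht' (by
        linear_combination -hk)
    exact mul_left_cancel₀ (by exact_mod_cast hc0) hfin

theorem gcd_pow_eq {p e i : ℕ} (hp : p.Prime) {x : ℤ} (hie : i < e)
    (h1 : ((p ^ i : ℕ) : ℤ) ∣ x) (h2 : ¬ ((p ^ (i + 1) : ℕ) : ℤ) ∣ x) :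
    Int.gcd x ((p ^ e : ℕ) : ℤ) = p ^ i := by
  have hd : Int.gcd x ((p ^ e : ℕ) : ℤ) ∣ p ^ e := by
    have : ((Int.gcd x ((p ^ e : ℕ) : ℤ) : ℕ) : ℤ) ∣ ((p ^ e : ℕ) : ℤ) := Int.gcd_dvd_right _ _
    exact_mod_cast this
  obtain ⟨j, hj, hjj⟩ := (Nat.dvd_prime_pow hp).1 hd
  rw [hjj]
  congr 1
  apply le_antisymm
  · by_contra hc
    apply h2
    have h3 : ((p ^ j : ℕ) : ℤ) ∣ x := by rw [← hjj]; exact Int.gcd_dvd_left _ _
    refine dvd_trans ?_ h3
    exact_mod_cast pow_dvd_pow p (by omega)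
  · have h3 : p ^ i ∣ Int.gcd x ((p ^ e : ℕ) : ℤ) := by
      apply Int.natCast_dvd_natCast.1
      apply Int.dvd_coe_gcd h1
      exact_mod_cast pow_dvd_pow p hie.le
    rw [hjj] at h3
    exact (Nat.pow_dvd_pow_iff_le_right hp.one_lt).1 h3

/-- exact valuation exists below `e` -/
theorem exists_val {p e : ℕ} {x : ℤ} (h : ¬ ((p ^ e : ℕ) : ℤ) ∣ x) :
    ∃ i, i < e ∧ ((p ^ i : ℕ) : ℤ) ∣ x ∧ ¬ ((p ^ (i + 1) : ℕ) : ℤ) ∣ x := by
  classical
  have hex : ∃ j, ¬ ((p ^ j : ℕ) : ℤ) ∣ x := ⟨e, h⟩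
  have h1 := Nat.find_spec hex
  have h2 : ∀ j < Nat.find hex, ((p ^ j : ℕ) : ℤ) ∣ x := fun j hj => by
    have := Nat.find_min hex hj
    push Not at this
    exact this
  have h3 : Nat.find hex ≤ e := Nat.find_min' hex h
  have h4 : Nat.find hex ≠ 0 := by
    intro h0
    rw [h0] at h1
    exact h1 (by simp)
  obtain ⟨i, hi⟩ : ∃ i, Nat.find hex = i + 1 := ⟨Nat.find hex - 1, by omega⟩
  rw [hi] at h1 h2 h3
  exact ⟨i, by omega, h2 i (by omega), h1⟩

theorem card_le_of_modEq {F : Finset ℤ} {L d p : ℕ} (hL : 0 < L) (hp : 0 < p)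
    (hcard : p ≤ F.card) (hmod : ∀ x ∈ F, ∀ y ∈ F, (L : ℤ) ∣ x - y)
    (hd : ∀ x ∈ F, ∀ y ∈ F, x - y ≤ d) : (p - 1) * L ≤ d := by
  have hne : F.Nonempty := Finset.card_pos.1 (by omega)
  set m := F.min' hne with hm
  have hmF : m ∈ F := F.min'_mem hne
  have hsub : F.image (fun x => (x - m) / (L : ℤ)) ⊆ Finset.Icc 0 ((d / L : ℕ) : ℤ) := by
    intro z hz
    obtain ⟨x, hx, rfl⟩ := Finset.mem_image.1 hz
    rw [Finset.mem_Icc]
    have h0 : 0 ≤ x - m := by have := F.min'_le x hx; linarith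
    have hL' : (0 : ℤ) < L := by exact_mod_cast hL
    refine ⟨Int.ediv_nonneg h0 hL'.le, ?_⟩
    push_cast
    exact Int.ediv_le_ediv hL' (hd x hx m hmF)
  have hinj : (F.image (fun x => (x - m) / (L : ℤ))).card = F.card := by
    apply Finset.card_image_of_injOn
    intro x hx y hy hxy
    simp only at hxy
    have h1 := Int.ediv_mul_cancel (hmod x hx m hmF)
    have h2 := Int.ediv_mul_cancel (hmod y hy m hmF)
    rw [hxy, h2] at h1
    linarith
  have h1 := Finset.card_le_card hsub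
  rw [hinj, Int.card_Icc] at h1
  have h2 : p ≤ d / L + 1 := by
    have : ((d / L : ℕ) : ℤ) + 1 - 0 = ((d / L + 1 : ℕ) : ℤ) := by push_cast; ring
    rw [this, Int.toNat_natCast] at h1
    omega
  have h3 : p - 1 ≤ d / L := by omega
  calc (p - 1) * L ≤ d / L * L := Nat.mul_le_mul_right _ h3
    _ ≤ d := Nat.div_mul_le_self _ _

theorem int_dvd_of_prime_pow {K : ℕ} {x : ℤ} (hK : 0 < K)
    (h : ∀ q f : ℕ, q.Prime → q ^ (f + 1) ∣ K → ¬ q ^ (f + 2) ∣ K →
      ((q ^ (f + 1) : ℕ) : ℤ) ∣ x) : (K : ℤ) ∣ x := by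
  rw [Int.natCast_dvd]
  rw [Nat.dvd_iff_prime_pow_dvd_dvd]
  intro q k hq hqk
  rcases Nat.eq_zero_or_pos k with rfl | hk
  · simp
  have hne : K ≠ 0 := hK.ne'
  have h1 : k ≤ K.factorization q := (hq.pow_dvd_iff_le_factorization hne).1 hqk
  obtain ⟨f, hf⟩ : ∃ f, K.factorization q = f + 1 := ⟨K.factorization q - 1, by omega⟩
  have h2 : q ^ (f + 1) ∣ K := (hq.pow_dvd_iff_le_factorization hne).2 (by omega)
  have h3 : ¬ q ^ (f + 2) ∣ K := fun h4 => by
    have := (hq.pow_dvd_iff_le_factorization hne).1 h4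
    omega
  have h4 := h q f hq h2 h3
  rw [Int.natCast_dvd] at h4
  exact (pow_dvd_pow q (by omega)).trans h4

/-- The main inequality for tiles of prime power size. -/
theorem Tiles.prime_pow_bound {A : Finset ℤ} {B : Set ℤ} {N p k d : ℕ} (h : Tiles A B)
    (hmin : IsLeast {m : ℕ | IsPeriod B m} N) (hp : p.Prime) (hk : 0 < k)
    (hcard : A.card = p ^ k) (hd : ∀ a ∈ A, ∀ a' ∈ A, a - a' ≤ d) : (p - 1) * N ≤ p * d := by
  classical
  have hB := hmin.1
  have hN : 0 < N := hB.1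
  -- the exponent of p in N
  have hpN : p ∣ N := by
    have h1 : A.card ∣ N := h.card_dvd hB
    rw [hcard] at h1
    exact (dvd_pow_self p hk.ne').trans h1
  obtain ⟨e, K, hpK, hNe⟩ : ∃ e K : ℕ, ¬ p ∣ K ∧ N = p ^ (e + 1) * K := by
    obtain ⟨e, K, hK, hNK⟩ := Nat.exists_eq_pow_mul_and_not_dvd hN.ne' p hp.ne_one
    rcases Nat.eq_zero_or_pos e with h0 | h0
    · subst h0
      exfalso; apply hK
      rw [pow_zero, one_mul] at hNK
      rw [← hNK]; exact hpN
    · exact ⟨e - 1, K, hK, by rw [show e - 1 + 1 = e by omega]; exact hNK⟩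
  have hK0 : 0 < K := by
    rcases Nat.eq_zero_or_pos K with h0 | h0
    · subst h0; simp at hpK
    · exact h0
  set E : ℕ := p ^ (e + 1) with hE
  have hE0 : 0 < E := pow_pos hp.pos _
  have hcopK : Nat.Coprime E K := Nat.Coprime.pow_left _ ((Nat.Prime.coprime_iff_not_dvd hp).2 hpK)
  have hEA : ∀ q : ℕ, q.Prime → q ∣ A.card → q ∣ E := by
    intro q hq hqa
    rw [hcard] at hqa
    have : q = p := (Nat.prime_dvd_prime_iff_eq hq hp).1 (hq.dvd_of_dvd_pow hqa)
    subst this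
    exact dvd_pow_self _ (by omega)
  have hB' : IsPeriod B (E * K) := by rw [← hNe]; exact hB
  have hslice : ∀ w, Tiles A (Pool.Agent.TilePer.slice B E K w) := fun w => h.slice hB' hcopK hEA w
  have hper : ∀ w, IsPeriod (Pool.Agent.TilePer.slice B E K w) E := fun w => slice_period hE0 w
  -- two elements
  have hcard2 : 1 < A.card := by
    rw [hcard]; exact Nat.one_lt_pow hk.ne' hp.one_lt
  -- valuations below e+1
  have hval : ∀ x ∈ A, ∀ y ∈ A, x ≠ y → ¬ ((p ^ (e + 1) : ℕ) : ℤ) ∣ x - y := by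
    intro x hx y hy hne hdvd
    apply hne
    obtain ⟨t, ht⟩ : ∃ t, t ∈ Pool.Agent.TilePer.slice B E K 0 := by
      obtain ⟨a, -, hb⟩ := (hslice 0).exists 0
      exact ⟨_, hb⟩
    refine (hslice 0).disj (hper 0) hEA hx hy ht ht ?_
    rw [sub_self, Int.gcd_zero_left]
    have h1 : (E : ℤ) ∣ x - y := hdvd
    have h2 := (Int.gcd_eq_right_iff_dvd (by positivity)).2 h1
    have h3 : Int.gcd (x - y) (E : ℤ) = E := by exact_mod_cast h2
    rw [h3]; simp
  obtain ⟨v, hve, hvmax, a, ha, b, hb, hab, hvab⟩ : ∃ v, v ≤ e ∧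
      (∀ x ∈ A, ∀ y ∈ A, ((p ^ (v + 1) : ℕ) : ℤ) ∣ x - y → x = y) ∧
      ∃ a ∈ A, ∃ b ∈ A, a ≠ b ∧ ((p ^ v : ℕ) : ℤ) ∣ a - b := by
    have hex : ∃ j, ∀ x ∈ A, ∀ y ∈ A, ((p ^ j : ℕ) : ℤ) ∣ x - y → x = y := by
      refine ⟨e + 1, fun x hx y hy hd => ?_⟩
      by_contra hne
      exact hval x hx y hy hne hd
    have h1 := Nat.find_spec hex
    have h2 : Nat.find hex ≤ e + 1 := Nat.find_min' hex (fun x hx y hy hd => by
      by_contra hne
      exact hval x hx y hy hne hd)
    have h0 : Nat.find hex ≠ 0 := by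
      intro h0
      rw [h0] at h1
      obtain ⟨x, hx, y, hy, hne⟩ := Finset.one_lt_card.1 hcard2
      exact hne (h1 x hx y hy (by simp))
    obtain ⟨v, hv⟩ : ∃ v, Nat.find hex = v + 1 := ⟨Nat.find hex - 1, by omega⟩
    have h3 := Nat.find_min hex (m := v) (by omega)
    push Not at h3
    rw [hv] at h1
    obtain ⟨x, hx, y, hy, hd, hne⟩ := h3
    exact ⟨v, by omega, h1, x, hx, y, hy, hne, hd⟩
  have hvab' : ¬ ((p ^ (v + 1) : ℕ) : ℤ) ∣ a - b := fun hd => hab (hvmax a ha b hb hd)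
  have hgab : Int.gcd (a - b) (E : ℤ) = p ^ v := gcd_pow_eq hp (by omega) hvab hvab'
  -- step C
  have hC : ∀ j : ℕ, ∃ a' ∈ A, ((p ^ (v + 1) : ℕ) : ℤ) ∣ a' - a - (p ^ v : ℕ) * j := by
    intro j
    by_cases hj : p ∣ j
    · refine ⟨a, ha, ?_⟩
      obtain ⟨i, rfl⟩ := hj
      exact ⟨-i, by push_cast; ring⟩
    obtain ⟨t, ht⟩ : ∃ t, t ∈ Pool.Agent.TilePer.slice B E K 0 := by
      obtain ⟨a, -, hb⟩ := (hslice 0).exists 0
      exact ⟨_, hb⟩
    obtain ⟨a', ha', ht'⟩ := (hslice 0).exists (a + t + (p ^ v : ℕ) * j)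
    set t' := a + t + (p ^ v : ℕ) * j - a' with ht'def
    refine ⟨a', ha', ?_⟩
    have hkey : ((p ^ (v + 1) : ℕ) : ℤ) ∣ t' - t := by
      by_contra hcon
      obtain ⟨i, hi, hi1, hi2⟩ := exists_val hcon
      have hgt : Int.gcd (t' - t) (E : ℤ) = p ^ i := gcd_pow_eq hp (by omega) hi1 hi2
      rcases Nat.lt_or_ge i v with hiv | hiv
      · -- i < v
        have hpv : ((p ^ (i + 1) : ℕ) : ℤ) ∣ ((p ^ v : ℕ) : ℤ) * j := by
          apply Dvd.dvd.mul_right
          exact_mod_cast pow_dvd_pow p (by omega : i + 1 ≤ v)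
        have hpv' : ((p ^ i : ℕ) : ℤ) ∣ ((p ^ v : ℕ) : ℤ) * j := by
          apply Dvd.dvd.mul_right
          exact_mod_cast pow_dvd_pow p (by omega : i ≤ v)
        have e1 : a - a' = (t' - t) - ((p ^ v : ℕ) : ℤ) * j := by rw [ht'def]; ring
        have hga : Int.gcd (a - a') (E : ℤ) = p ^ i := by
          apply gcd_pow_eq hp (by omega)
          · rw [e1]; exact dvd_sub hi1 hpv'
          · rw [e1]; intro hd
            apply hi2
            have := dvd_add hd hpv
            simpa using this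
        have haa := (hslice 0).disj (hper 0) hEA ha ha' ht ht' (hga.trans hgt.symm)
        apply hi2
        have e2 : t' - t = ((p ^ v : ℕ) : ℤ) * j := by rw [ht'def, haa]; ring
        rw [e2]; exact hpv
      · have : i = v := by omega
        subst this
        exact hab ((hslice 0).disj (hper 0) hEA ha hb ht ht' (hgab.trans hgt.symm))
    have e3 : a' - a - ((p ^ v : ℕ) : ℤ) * j = -(t' - t) := by rw [ht'def]; ring
    rw [e3]
    exact (dvd_neg).2 hkey
  -- the set F
  set F := A.filter (fun x => ((p ^ v : ℕ) : ℤ) ∣ x - a) with hF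
  have hFcard : p ≤ F.card := by
    choose g hgA hg using hC
    have hmaps : ∀ j ∈ Finset.range p, g j ∈ F := by
      intro j _
      rw [hF, Finset.mem_filter]
      refine ⟨hgA j, ?_⟩
      have h1 : ((p ^ v : ℕ) : ℤ) ∣ ((p ^ (v + 1) : ℕ) : ℤ) := by
        exact_mod_cast pow_dvd_pow p (by omega : v ≤ v + 1)
      have h2 := dvd_add (h1.trans (hg j)) (Dvd.intro _ rfl : ((p ^ v : ℕ) : ℤ) ∣ (p ^ v : ℕ) * j)
      simpa using h2
    have hinj : Set.InjOn g (Finset.range p : Set ℕ) := by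
      intro i hi j hj hij
      have h1 := hg i
      have h2 := hg j
      rw [hij] at h1
      have h3 := dvd_sub h2 h1
      have e : (g j - a - ((p ^ v : ℕ) : ℤ) * j) - (g j - a - ((p ^ v : ℕ) : ℤ) * i) =
        ((p ^ v : ℕ) : ℤ) * ((i : ℤ) - j) := by ring
      rw [e, pow_succ] at h3
      push_cast at h3
      have h4 : (p : ℤ) ∣ (i : ℤ) - j :=
        (mul_dvd_mul_iff_left (pow_ne_zero _ (by exact_mod_cast hp.ne_zero))).1 h3
      have h5 : (i : ℤ) ≡ j [ZMOD p] := (Int.modEq_iff_dvd.2 (by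
        have := (dvd_neg).2 h4
        rwa [neg_sub] at this))
      have h6 : i ≡ j [MOD p] := (Int.natCast_modEq_iff).1 h5
      have hi' : i < p := by simpa using hi
      have hj' : j < p := by simpa using hj
      exact Nat.ModEq.eq_of_lt_of_lt h6 hi' hj'
    have := Finset.card_le_card_of_injOn g hmaps hinj
    simpa using this
  -- step D
  have hD : ∀ x ∈ F, (K : ℤ) ∣ x - a := by
    intro x hx
    rw [hF, Finset.mem_filter] at hx
    obtain ⟨hxA, hxv⟩ := hx
    by_cases hxa : x = a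
    · subst hxa; simp
    have hxv' : ¬ ((p ^ (v + 1) : ℕ) : ℤ) ∣ x - a := fun hd => hxa (hvmax x hxA a ha hd)
    apply int_dvd_of_prime_pow hK0
    intro q f hq hqK hqK'
    obtain ⟨K', hK'⟩ := hqK
    have hqK'' : ¬ q ∣ K' := by
      rintro ⟨s, rfl⟩
      apply hqK'
      exact ⟨s, by rw [hK']; ring⟩
    have hqp : q ≠ p := by
      rintro rfl
      apply hpK
      rw [hK']
      exact Dvd.dvd.mul_right (dvd_pow_self _ (by omega)) _
    have hEq : Nat.Coprime E q := Nat.Coprime.pow_left _ ((Nat.coprime_primes hp hq).2 hqp.symm)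
    have hEK' : Nat.Coprime E K' := Nat.Coprime.coprime_dvd_right ⟨q ^ (f + 1), by rw [hK']; ring⟩ hcopK
    obtain ⟨a'', ha'', hne'', hall⟩ := h.type_claim hmin (M := E) (K' := K') (q := q) (f := f)
      (by rw [hNe, hK']) hq hEq hEK' ((Nat.Prime.coprime_iff_not_dvd hq).2 hqK'') hEA a ha
    obtain ⟨i, hi, hi1, hi2⟩ := exists_val (hval a ha a'' ha'' hne''.symm)
    have hga : Int.gcd (a - a'') (E : ℤ) = p ^ i := gcd_pow_eq hp hi hi1 hi2
    have hiv : i ≤ v := by
      by_contra hcon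
      apply hne''.symm
      apply hvmax a ha a'' ha''
      refine dvd_trans ?_ hi1
      exact_mod_cast pow_dvd_pow p (by omega : v + 1 ≤ i)
    rcases Nat.lt_or_ge i v with hlt | hge
    · have h1 : ((q ^ (f + 1) : ℕ) : ℤ) ∣ x - a'' := by
        apply hall x hxA a'' ha''
        rw [hga]
        apply gcd_pow_eq hp hi
        · have e1 : x - a'' = (x - a) + (a - a'') := by ring
          rw [e1]
          refine dvd_add (dvd_trans ?_ hxv) hi1
          exact_mod_cast pow_dvd_pow p (by omega : i ≤ v)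
        · intro hd
          apply hi2
          have e1 : a - a'' = (x - a'') - (x - a) := by ring
          rw [e1]
          refine dvd_sub hd (dvd_trans ?_ hxv)
          exact_mod_cast pow_dvd_pow p (by omega : i + 1 ≤ v)
      have h2 : ((q ^ (f + 1) : ℕ) : ℤ) ∣ a - a'' := hall a ha a'' ha'' rfl
      have e1 : x - a = (x - a'') - (a - a'') := by ring
      rw [e1]; exact dvd_sub h1 h2
    · have hiv' : i = v := by omega
      subst hiv'
      apply hall x hxA a ha
      rw [hga]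
      exact gcd_pow_eq hp hi hxv hxv'
  -- step E
  have hE' : v = e := by
    by_contra hne
    have hve' : v < e := by omega
    set δ : ℕ := p ^ e * K with hδ
    have hδ0 : 0 < δ := by have := hp.pos; positivity
    have hNδ : N = p * δ := by rw [hNe, hE, hδ, pow_succ]; ring
    obtain ⟨b₀, hb₀, hb₀δ⟩ : ∃ b₀ ∈ B, b₀ + (δ : ℤ) ∉ B := by
      by_contra hcon
      push Not at hcon
      have hmul : ∀ k : ℕ, ∀ b ∈ B, b + (k : ℤ) * δ ∈ B := by
        intro k
        induction k with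
        | zero => intro b hb; simpa using hb
        | succ k ih =>
          intro b hb
          have := hcon _ (ih b hb)
          have e : b + (k : ℤ) * δ + δ = b + ((k + 1 : ℕ) : ℤ) * δ := by push_cast; ring
          rwa [e] at this
      have hper : IsPeriod B δ := by
        refine ⟨hδ0, fun x => ⟨fun hx => ?_, fun hx => hcon x hx⟩⟩
        have h1 := hmul (p - 1) _ hx
        have e : x + (δ : ℤ) + ((p - 1 : ℕ) : ℤ) * δ = x + N := by
          have hq1 : ((p - 1 : ℕ) : ℤ) = p - 1 := by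
            have := hp.one_lt; push_cast [Nat.cast_sub this.le]; ring
          rw [hq1, hNδ]; push_cast; ring
        rw [e] at h1
        exact (hB.2 x).1 h1
      have hle : N ≤ δ := hmin.2 hper
      rw [hNδ] at hle
      have := hp.one_lt
      nlinarith
    have hb₀s : b₀ ∈ Pool.Agent.TilePer.slice B E K b₀ := ⟨b₀, hb₀, Int.ModEq.refl _, Int.ModEq.refl _⟩
    have hδs : b₀ + (δ : ℤ) ∉ Pool.Agent.TilePer.slice B E K b₀ := by
      rintro ⟨b, hb, h1, h2⟩
      apply hb₀δ
      have hδK : (δ : ℤ) ≡ 0 [ZMOD K] := by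
        rw [Int.modEq_zero_iff_dvd]
        exact ⟨(p ^ e : ℕ), by rw [hδ]; push_cast; ring⟩
      have h3 : b ≡ b₀ + δ [ZMOD K] := by
        have := (Int.ModEq.refl (n := (K : ℤ)) b₀).add hδK
        rw [add_zero] at this
        exact h2.trans this.symm
      have h4 := intModEq_mul_of_coprime hcopK h1 h3
      exact (hB'.modEq h4).1 hb
    obtain ⟨a', ha', ht'⟩ := (hslice b₀).exists (a + b₀ + δ)
    have hne' : a ≠ a' := by
      rintro rfl
      apply hδs
      have e : a + b₀ + (δ : ℤ) - a = b₀ + δ := by ring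
      rwa [e] at ht'
    obtain ⟨i, hi, hi1, hi2⟩ := exists_val (hval a ha a' ha' hne')
    have hiv : i ≤ v := by
      by_contra hcon
      apply hne'
      apply hvmax a ha a' ha'
      refine dvd_trans ?_ hi1
      exact_mod_cast pow_dvd_pow p (by omega : v + 1 ≤ i)
    have hδi : ((p ^ (i + 1) : ℕ) : ℤ) ∣ (δ : ℤ) := by
      rw [hδ]
      apply Int.natCast_dvd_natCast.2
      exact Dvd.dvd.mul_right (pow_dvd_pow p (by omega)) _
    have hδi' : ((p ^ i : ℕ) : ℤ) ∣ (δ : ℤ) := by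
      rw [hδ]
      apply Int.natCast_dvd_natCast.2
      exact Dvd.dvd.mul_right (pow_dvd_pow p (by omega)) _
    apply hne'
    refine (hslice b₀).disj (hper b₀) hEA ha ha' hb₀s ht' ?_
    have g1 : Int.gcd (a - a') (E : ℤ) = p ^ i := gcd_pow_eq hp hi hi1 hi2
    have g2 : Int.gcd (a + b₀ + (δ : ℤ) - a' - b₀) (E : ℤ) = p ^ i := by
      have e1 : a + b₀ + (δ : ℤ) - a' - b₀ = (a - a') + δ := by ring
      rw [e1]
      apply gcd_pow_eq hp hi
      · exact dvd_add hi1 hδi'
      · intro hd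
        apply hi2
        have := dvd_sub hd hδi
        simpa using this
    rw [g1, g2]
  subst hE'
  -- step F
  have hcop2 : IsCoprime (((p ^ v : ℕ) : ℤ)) (K : ℤ) := by
    apply Nat.isCoprime_iff_coprime.2
    exact Nat.Coprime.pow_left _ ((Nat.Prime.coprime_iff_not_dvd hp).2 hpK)
  have hFa : ∀ x ∈ F, ((p ^ v * K : ℕ) : ℤ) ∣ x - a := by
    intro x hx
    have h1 := hD x hx
    rw [hF, Finset.mem_filter] at hx
    have := hcop2.mul_dvd hx.2 h1
    push_cast at this ⊢
    exact this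
  have hFF : ∀ x ∈ F, ∀ y ∈ F, ((p ^ v * K : ℕ) : ℤ) ∣ x - y := by
    intro x hx y hy
    have := dvd_sub (hFa x hx) (hFa y hy)
    have e : x - a - (y - a) = x - y := by ring
    rwa [e] at this
  have hfin := card_le_of_modEq (F := F) (L := p ^ v * K) (d := d) (p := p)
    (by have := hp.pos; positivity) hp.pos hFcard hFF (fun x hx y hy => hd x (by
      rw [hF, Finset.mem_filter] at hx; exact hx.1) y (by
      rw [hF, Finset.mem_filter] at hy; exact hy.1))
  have e : (p - 1) * N = p * ((p - 1) * (p ^ v * K)) := by rw [hNe, hE, pow_succ]; ring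
  rw [e]
  exact Nat.mul_le_mul_left _ hfin

end Pool.Agent.TilePer
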