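import Pool.Agent.TilePer.Tijdeman

/-! Slices of complements and the key congruence property of difference types. -/

namespace Pool.Agent.TilePer

open Finset

/-- the slice of `B` at the residue `w` modulo `L`, read modulo `M` -/
def slice (B : Set ℤ) (M L : ℕ) (w : ℤ) : Set ℤ :=
  {x | ∃ b ∈ B, b ≡ x [ZMOD M] ∧ b ≡ w [ZMOD L]}

theorem slice_period {B : Set ℤ} {M L : ℕ} (hM : 0 < M) (w : ℤ) : IsPeriod (slice B M L w) M := by
  refine ⟨hM, fun x => ?_⟩
  have e : x + (M : ℤ) ≡ x [ZMOD M] := by simp [Int.ModEq]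
  constructor
  · rintro ⟨b, hb, h1, h2⟩
    exact ⟨b, hb, h1.trans e, h2⟩
  · rintro ⟨b, hb, h1, h2⟩
    exact ⟨b, hb, h1.trans e.symm, h2⟩

theorem coprime_of_primes {c n M : ℕ} (hMA : ∀ p : ℕ, p.Prime → p ∣ n → p ∣ M)
    (hc : Nat.Coprime c M) : Nat.Coprime c n := by
  by_contra hne
  obtain ⟨p, hp, hd⟩ := Nat.exists_prime_and_dvd hne
  have h1 : p ∣ c := hd.trans (Nat.gcd_dvd_left _ _)
  have h2 : p ∣ n := hd.trans (Nat.gcd_dvd_right _ _)
  have h3 := hMA p hp h2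
  have h4 := Nat.dvd_gcd h1 h3
  rw [hc] at h4
  exact hp.one_lt.ne' (Nat.dvd_one.1 h4)

theorem intModEq_mul_of_coprime {M L : ℕ} (hML : Nat.Coprime M L) {x y : ℤ}
    (h1 : x ≡ y [ZMOD M]) (h2 : x ≡ y [ZMOD L]) : x ≡ y [ZMOD ((M * L : ℕ) : ℤ)] := by
  have := (Int.modEq_and_modEq_iff_modEq_mul (a := x) (b := y) (m := M) (n := L)
    (by simpa using hML)).1 ⟨h1, h2⟩
  push_cast
  exact this

theorem exists_crt {M L : ℕ} (hML : Nat.Coprime M L) (hM : 0 < M) (hL : 0 < L) (c₁ c₂ : ℕ) :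
    ∃ c : ℕ, 0 < c ∧ (c : ℤ) ≡ c₁ [ZMOD M] ∧ (c : ℤ) ≡ c₂ [ZMOD L] := by
  obtain ⟨k, h1, h2⟩ := Nat.chineseRemainder hML c₁ c₂
  refine ⟨k + M * L, by positivity, ?_, ?_⟩
  · have : (k : ℤ) ≡ c₁ [ZMOD M] := (Int.natCast_modEq_iff).2 h1
    refine Int.ModEq.trans ?_ this
    push_cast
    simp [Int.ModEq]
  · have : (k : ℤ) ≡ c₂ [ZMOD L] := (Int.natCast_modEq_iff).2 h2
    refine Int.ModEq.trans ?_ this
    push_cast
    simp [Int.ModEq]

theorem exists_int_crt {M L : ℕ} (hML : Nat.Coprime M L) (x y : ℤ) :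
    ∃ z : ℤ, z ≡ x [ZMOD M] ∧ z ≡ y [ZMOD L] := by
  have hb := Nat.gcd_eq_gcd_ab M L
  rw [hML] at hb
  refine ⟨x + M * (Nat.gcdA M L) * (y - x), ?_, ?_⟩
  · simp [Int.ModEq, mul_assoc]
  · have e : x + M * (Nat.gcdA M L) * (y - x) = y + L * (-(Nat.gcdB M L) * (y - x)) := by
      have : (M : ℤ) * Nat.gcdA M L = 1 - L * Nat.gcdB M L := by
        push_cast at hb; linarith
      rw [this]; ring
    rw [e]
    simp [Int.ModEq]

theorem Tiles.slice {A : Finset ℤ} {B : Set ℤ} {M L : ℕ} (h : Tiles A B)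
    (hB : IsPeriod B (M * L)) (hML : Nat.Coprime M L)
    (hMA : ∀ p : ℕ, p.Prime → p ∣ A.card → p ∣ M) (w : ℤ) :
    Tiles A (slice B M L w) := by
  have hM : 0 < M := Nat.pos_of_mul_pos_left hB.1 |> fun _ => by
    rcases Nat.eq_zero_or_pos M with h0 | h0
    · have := hB.1; subst h0; simp at this
    · exact h0
  have hL : 0 < L := by
    rcases Nat.eq_zero_or_pos L with h0 | h0
    · have := hB.1; subst h0; simp at this
    · exact h0
  obtain ⟨c, hc, hc1, hc2⟩ := exists_crt hML hM hL 1 0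
  have hcM : Nat.Coprime c M := by
    have h1 : c ≡ 1 [MOD M] := (Int.natCast_modEq_iff).1 hc1
    have := h1.gcd_eq
    unfold Nat.Coprime
    rw [this]; simp
  have hcA := coprime_of_primes hMA hcM
  have hT := h.tijdeman hB hc hcA
  have key : ∀ a : ℤ, (c : ℤ) * a ≡ a [ZMOD M] := fun a => by
    have := hc1.mul_right a
    simpa using this
  have key2 : ∀ a : ℤ, (c : ℤ) * a ≡ 0 [ZMOD L] := fun a => by
    have := hc2.mul_right a
    simpa using this
  apply Tiles.mk'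
  · intro n
    obtain ⟨n', hn1, hn2⟩ := exists_int_crt hML n w
    obtain ⟨y, hy, hb⟩ := hT.exists n'
    obtain ⟨a, ha, rfl⟩ := Finset.mem_image.1 hy
    refine ⟨a, ha, n' - c * a, hb, hn1.sub (key a), ?_⟩
    have := hn2.sub (key2 a)
    simpa using this
  · rintro a ha a' ha' x ⟨b, hb, h1, h2⟩ x' ⟨b', hb', h1', h2'⟩ e
    have e1 : (c : ℤ) * a + b ≡ c * a' + b' [ZMOD M] := by
      have := (key a).add h1
      have := this.trans (e ▸ ((key a').add h1').symm)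
      exact this
    have e2 : (c : ℤ) * a + b ≡ c * a' + b' [ZMOD L] := by
      have h3 := (key2 a).add h2
      have h4 := (key2 a').add h2'
      exact h3.trans h4.symm
    have e3 := intModEq_mul_of_coprime hML e1 e2
    obtain ⟨k, hk⟩ := e3.dvd
    have hb'' : b' - k * ((M * L : ℕ) : ℤ) ∈ B := by
      have := (hB.int (-k) b').2 hb'
      have e5 : b' + -k * ((M * L : ℕ) : ℤ) = b' - k * ((M * L : ℕ) : ℤ) := by ring
      rwa [e5] at this
    have := hT.unique (Finset.mem_image_of_mem _ ha) (Finset.mem_image_of_mem _ ha') hb hb''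
      (by linarith)
    have hc0 : (c : ℤ) ≠ 0 := by exact_mod_cast hc.ne'
    exact mul_left_cancel₀ hc0 this

end Pool.Agent.TilePer
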