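import Pool.Agent.TilePer.Basic

/-! Tijdeman's theorem: if `A ⊕ B = ℤ` and `c` is coprime to `|A|`, then `cA ⊕ B = ℤ`. -/

namespace Pool.Agent.TilePer

open Finset

/-- the number of representations of `y` as `c a + b` modulo `N` -/
noncomputable def cnt (A : Finset ℤ) (N : ℕ) (β : ZMod N → ℕ) (c : ℕ) (y : ZMod N) : ℕ :=
  ∑ a ∈ A, β (y - c * (a : ZMod N))

theorem cnt_modEq {p N : ℕ} [NeZero N] (hp : p.Prime) (A : Finset ℤ) (hpn : ¬ p ∣ A.card)
    (β : ZMod N → ℕ) (h : ∀ y, cnt A N β 1 y = 1) (y : ZMod N) : cnt A N β p y ≡ 1 [MOD p] := by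
  haveI : Fact p.Prime := ⟨hp⟩
  let R := AddMonoidAlgebra (ZMod p) (ZMod N)
  haveI : CharP R p := charP_of_injective_ringHom
    (f := (AddMonoidAlgebra.singleZeroRingHom : ZMod p →+* R))
    (fun x y hxy => by
      have := congrArg (fun z : R => z.coeff 0) hxy
      simpa using this) p
  -- elements
  let α : R := ∑ a ∈ A, AddMonoidAlgebra.single ((a : ℤ) : ZMod N) (1 : ZMod p)
  let b : R := ∑ t : ZMod N, AddMonoidAlgebra.single t ((β t : ℕ) : ZMod p)
  let E : R := ∑ t : ZMod N, AddMonoidAlgebra.single t (1 : ZMod p)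
  have hgen : ∀ (c : ℕ), (∑ a ∈ A, AddMonoidAlgebra.single ((c : ZMod N) * (a : ZMod N)) (1 : ZMod p)) * b
      = ∑ t : ZMod N, AddMonoidAlgebra.single t ((cnt A N β c t : ℕ) : ZMod p) := by
    intro c
    simp only [b]
    rw [Finset.sum_mul]
    have : ∀ a ∈ A, AddMonoidAlgebra.single ((c : ZMod N) * (a : ZMod N)) (1 : ZMod p) *
        (∑ t : ZMod N, AddMonoidAlgebra.single t ((β t : ℕ) : ZMod p)) =
        ∑ t : ZMod N, AddMonoidAlgebra.single t
        ((β (t - c * (a : ZMod N)) : ℕ) : ZMod p) := by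
      intro a _
      rw [Finset.mul_sum]
      refine Fintype.sum_equiv (Equiv.addLeft ((c : ZMod N) * (a : ZMod N))) _ _ ?_
      intro t
      simp [AddMonoidAlgebra.single_mul_single]
    rw [Finset.sum_congr rfl this, Finset.sum_comm]
    refine Finset.sum_congr rfl fun t _ => ?_
    rw [cnt, Nat.cast_sum]
    exact (map_sum (AddMonoidAlgebra.singleAddHom t : ZMod p →+ R) _ _).symm
  have hE : ∀ x : ZMod N, (AddMonoidAlgebra.single x (1 : ZMod p) : R) * E = E := by
    intro x
    simp only [E]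
    rw [Finset.mul_sum]
    refine Fintype.sum_equiv (Equiv.addLeft x) _ _ ?_
    intro t
    simp [AddMonoidAlgebra.single_mul_single]
  have hαE : α * E = (A.card : R) * E := by
    simp only [α]
    rw [Finset.sum_mul, Finset.sum_congr rfl fun a _ => hE _]
    simp
  have h1 : α * b = E := by
    have := hgen 1
    simp only [Nat.cast_one, one_mul, h] at this
    exact this
  have hpow : ∀ k : ℕ, α ^ k * E = (A.card : R) ^ k * E := by
    intro k
    induction k with
    | zero => simp
    | succ k ih => rw [pow_succ, mul_assoc, hαE, mul_left_comm, ih, pow_succ]; ring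
  have hfrob : α ^ p = ∑ a ∈ A, AddMonoidAlgebra.single ((p : ZMod N) * (a : ZMod N)) (1 : ZMod p) := by
    simp only [α]
    rw [sum_pow_char]
    refine Finset.sum_congr rfl fun a _ => ?_
    rw [AddMonoidAlgebra.single_pow]
    simp
  have hcard : (A.card : R) ^ (p - 1) = 1 := by
    have h2 : ((A.card : ZMod p)) ^ (p - 1) = 1 := by
      apply ZMod.pow_card_sub_one_eq_one
      intro h0
      exact hpn ((ZMod.natCast_eq_zero_iff _ _).1 h0)
    have h3 := congrArg (AddMonoidAlgebra.singleZeroRingHom : ZMod p →+* R) h2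
    simpa only [map_pow, map_natCast, map_one] using h3
  have hfin : (∑ a ∈ A, AddMonoidAlgebra.single ((p : ZMod N) * (a : ZMod N)) (1 : ZMod p)) * b = E := by
    rw [← hfrob]
    obtain ⟨k, hk⟩ : ∃ k, p = k + 1 := ⟨p - 1, by have := hp.pos; omega⟩
    have : α ^ p * b = α ^ (p - 1) * E := by
      rw [← h1, ← mul_assoc, ← pow_succ]
      congr 2
      have := hp.pos; omega
    rw [this, hpow, hcard, one_mul]
  rw [hgen p] at hfin
  have hsum : ∀ g : ZMod N → ZMod p, ((∑ t : ZMod N, AddMonoidAlgebra.single t (g t)) :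
      AddMonoidAlgebra (ZMod p) (ZMod N)).coeff y = g y := by
    intro g
    rw [AddMonoidAlgebra.coeff_sum, Finsupp.finset_sum_apply]
    simp [Finsupp.single_apply]
  have := congrArg (fun z : AddMonoidAlgebra (ZMod p) (ZMod N) => z.coeff y) hfin
  have e1 := hsum (fun t => ((cnt A N β p t : ℕ) : ZMod p))
  have e2 := hsum (fun t => 1)
  rw [← ZMod.natCast_eq_natCast_iff]
  rw [← e1, Nat.cast_one, ← e2]
  exact this

/-- the indicator of `B` modulo `N` -/
noncomputable def ind (B : Set ℤ) (N : ℕ) (t : ZMod N) : ℕ :=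
  by classical exact if (t.cast : ℤ) ∈ B then 1 else 0

theorem ind_le (B : Set ℤ) (N : ℕ) (t : ZMod N) : ind B N t ≤ 1 := by
  unfold ind; split_ifs <;> simp

theorem ind_intCast {B : Set ℤ} {N : ℕ} (h : IsPeriod B N) (x : ℤ) :
    ind B N (x : ZMod N) = 1 ↔ x ∈ B := by
  haveI : NeZero N := ⟨h.1.ne'⟩
  unfold ind
  have : ((((x : ℤ) : ZMod N).cast : ℤ) ∈ B) ↔ x ∈ B := by
    apply h.modEq
    rw [← ZMod.intCast_eq_intCast_iff]
    simp
  split_ifs with h1
  · simp [this.1 h1]
  · simp [mt this.2 h1]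

theorem cnt_one {A : Finset ℤ} {B : Set ℤ} {N : ℕ} (h : Tiles A B) (hB : IsPeriod B N)
    (y : ZMod N) : cnt A N (ind B N) 1 y = 1 := by
  haveI : NeZero N := ⟨hB.1.ne'⟩
  obtain ⟨x, rfl⟩ := ZMod.intCast_surjective y
  unfold cnt
  obtain ⟨a, ha, hb⟩ := h.exists x
  rw [Finset.sum_eq_single a]
  · have := (ind_intCast hB (x - a)).2 hb
    push_cast at this ⊢
    simpa using this
  · intro a' ha' hne
    have h0 : ind B N (((x - a' : ℤ)) : ZMod N) ≠ 1 := by
      rw [Ne, ind_intCast hB]
      intro hmem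
      exact hne (h.unique ha' ha hmem hb (by ring))
    have h1 := ind_le B N (((x - a' : ℤ)) : ZMod N)
    have h2 : ind B N (((x - a' : ℤ)) : ZMod N) = 0 := by omega
    push_cast at h2 ⊢
    simpa using h2
  · intro h'; exact absurd ha h'

theorem Tiles.card_mul {A : Finset ℤ} {B : Set ℤ} {N : ℕ} [NeZero N] (h : Tiles A B)
    (hB : IsPeriod B N) : A.card * (∑ t : ZMod N, ind B N t) = N := by
  have h1 : ∑ y : ZMod N, cnt A N (ind B N) 1 y = N := by
    simp [cnt_one h hB]
  refine Eq.trans ?_ h1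
  unfold cnt
  rw [Finset.sum_comm]
  have : ∀ a ∈ A, ∑ y : ZMod N, ind B N (y - ((1 : ℕ) : ZMod N) * (a : ZMod N))
      = ∑ t : ZMod N, ind B N t := by
    intro a _
    exact Fintype.sum_equiv (Equiv.subRight _) _ _ (fun y => rfl)
  rw [Finset.sum_congr rfl this]
  simp

theorem Tiles.tijdeman_prime {A : Finset ℤ} {B : Set ℤ} {N p : ℕ} (h : Tiles A B)
    (hB : IsPeriod B N) (hp : p.Prime) (hpn : ¬ p ∣ A.card) :
    Tiles (A.image fun a => (p : ℤ) * a) B := by
  haveI : NeZero N := ⟨hB.1.ne'⟩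
  have h1 : ∀ y, 1 ≤ cnt A N (ind B N) p y := by
    intro y
    have := cnt_modEq hp A hpn (ind B N) (cnt_one h hB) y
    by_contra hc
    have h0 : cnt A N (ind B N) p y = 0 := by omega
    rw [h0] at this
    have h3 := (Nat.modEq_zero_iff_dvd).1 this.symm
    exact hp.one_lt.ne' (Nat.dvd_one.1 h3)
  have htot : ∑ y : ZMod N, cnt A N (ind B N) p y = N := by
    unfold cnt
    rw [Finset.sum_comm]
    have : ∀ a ∈ A, ∑ y : ZMod N, ind B N (y - (p : ZMod N) * (a : ZMod N))
        = ∑ t : ZMod N, ind B N t := by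
      intro a _
      exact Fintype.sum_equiv (Equiv.subRight _) _ _ (fun y => rfl)
    rw [Finset.sum_congr rfl this]
    simpa using h.card_mul hB
  have hone : ∀ y, cnt A N (ind B N) p y = 1 := by
    have hs : ∑ y : ZMod N, (1 : ℕ) = ∑ y : ZMod N, cnt A N (ind B N) p y := by
      rw [htot]; simp
    have := (Finset.sum_eq_sum_iff_of_le (fun y _ => h1 y)).1 hs
    intro y; exact (this y (Finset.mem_univ y)).symm
  apply Tiles.mk'
  · intro x
    have := hone (x : ZMod N)
    unfold cnt at this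
    have hex : ∃ a ∈ A, ind B N ((x : ZMod N) - p * (a : ZMod N)) ≠ 0 := by
      by_contra hc
      push Not at hc
      rw [Finset.sum_eq_zero hc] at this
      exact absurd this (by norm_num)
    obtain ⟨a, ha, hne⟩ := hex
    refine ⟨p * a, Finset.mem_image_of_mem _ ha, ?_⟩
    have h2 := ind_le B N ((x : ZMod N) - p * (a : ZMod N))
    have h3 : ind B N ((x : ZMod N) - p * (a : ZMod N)) = 1 := by omega
    rw [← ind_intCast hB]
    push_cast
    exact h3
  · intro c hc c' hc' b hb b' hb' e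
    obtain ⟨a, ha, rfl⟩ := Finset.mem_image.1 hc
    obtain ⟨a', ha', rfl⟩ := Finset.mem_image.1 hc'
    by_contra hne
    have hne' : a ≠ a' := fun h => hne (by rw [h])
    have := hone ((p * a + b : ℤ) : ZMod N)
    unfold cnt at this
    have hb1 : ind B N (((p * a + b : ℤ) : ZMod N) - p * (a : ZMod N)) = 1 := by
      have := (ind_intCast hB b).2 hb
      push_cast
      have e : (p : ZMod N) * (a : ZMod N) + (b : ZMod N) - p * (a : ZMod N) = b := by ring
      rw [e]; exact this
    have hb2 : ind B N (((p * a + b : ℤ) : ZMod N) - p * (a' : ZMod N)) = 1 := by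
      have := (ind_intCast hB b').2 hb'
      rw [e]
      push_cast
      have e : (p : ZMod N) * (a' : ZMod N) + (b' : ZMod N) - p * (a' : ZMod N) = b' := by ring
      rw [e]; exact this
    have hle : ∑ x ∈ ({a, a'} : Finset ℤ), ind B N (((p * a + b : ℤ) : ZMod N) - p * (x : ZMod N))
        ≤ ∑ x ∈ A, ind B N (((p * a + b : ℤ) : ZMod N) - p * (x : ZMod N)) := by
      apply Finset.sum_le_sum_of_subset
      intro x hx
      simp only [Finset.mem_insert, Finset.mem_singleton] at hx
      rcases hx with rfl | rfl <;> assumption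
    rw [Finset.sum_pair hne', hb1, hb2, this] at hle
    omega

theorem card_image_mul {A : Finset ℤ} {c : ℕ} (hc : 0 < c) :
    (A.image fun a => (c : ℤ) * a).card = A.card := by
  apply Finset.card_image_of_injective
  intro x y hxy
  have : (c : ℤ) ≠ 0 := by exact_mod_cast hc.ne'
  exact mul_left_cancel₀ this hxy

theorem Tiles.tijdeman {A : Finset ℤ} {B : Set ℤ} {N : ℕ} (h : Tiles A B)
    (hB : IsPeriod B N) {c : ℕ} (hc : 0 < c) (hcn : Nat.Coprime c A.card) :
    Tiles (A.image fun a => (c : ℤ) * a) B := by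
  induction c using Nat.recOnMul generalizing A with
  | zero => exact absurd hc (lt_irrefl _)
  | one => simpa using h
  | prime p hp =>
    exact h.tijdeman_prime hB hp ((Nat.Prime.coprime_iff_not_dvd hp).1 hcn)
  | mul a b iha ihb =>
    have ha : 0 < a := by
      rcases Nat.eq_zero_or_pos a with h0 | h0
      · subst h0; simp at hc
      · exact h0
    have hb : 0 < b := by
      rcases Nat.eq_zero_or_pos b with h0 | h0
      · subst h0; simp at hc
      · exact h0
    have h1 := iha h ha (Nat.Coprime.coprime_mul_right hcn)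
    have h2 := ihb h1 hb (by rw [card_image_mul ha]; exact Nat.Coprime.coprime_mul_left hcn)
    rw [Finset.image_image] at h2
    have e : ((fun x : ℤ => (b : ℤ) * x) ∘ fun x : ℤ => (a : ℤ) * x) = fun x : ℤ => ((a * b : ℕ) : ℤ) * x := by
      funext x; simp; ring
    rw [e] at h2
    exact h2

end Pool.Agent.TilePer
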