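import Pool.Agent.TilePer.Claim

/-! The type theorem: for `q^(f+1) ‖ N`, `q ∤ |A|`, all pairs of `A` of a certain type are
congruent modulo `q^(f+1)`. -/

namespace Pool.Agent.TilePer

open Finset

theorem Tiles.type_claim {A : Finset ℤ} {B : Set ℤ} {N M K' q f : ℕ} (h : Tiles A B)
    (hmin : IsLeast {k : ℕ | IsPeriod B k} N) (hN : N = M * (q ^ (f + 1) * K'))
    (hq : q.Prime) (hMq : Nat.Coprime M q) (hMK : Nat.Coprime M K') (hqK : Nat.Coprime q K')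
    (hMA : ∀ p : ℕ, p.Prime → p ∣ A.card → p ∣ M) (a : ℤ) (ha : a ∈ A) :
    ∃ a' ∈ A, a' ≠ a ∧ ∀ a₁ ∈ A, ∀ a₂ ∈ A,
      Int.gcd (a₁ - a₂) M = Int.gcd (a - a') M → ((q ^ (f + 1) : ℕ) : ℤ) ∣ a₁ - a₂ := by
  have hB := hmin.1
  have hNpos : 0 < N := hB.1
  have hM : 0 < M := by
    rcases Nat.eq_zero_or_pos M with h0 | h0
    · subst h0; simp at hN; omega
    · exact h0
  have hK' : 0 < K' := by
    rcases Nat.eq_zero_or_pos K' with h0 | h0
    · subst h0; simp at hN; omega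
    · exact h0
  set δ : ℕ := M * q ^ f * K' with hδ
  have hδpos : 0 < δ := by
    have := hq.pos; positivity
  have hNδ : N = q * δ := by rw [hN, hδ, pow_succ]; ring
  -- step 1
  obtain ⟨b₀, hb₀, hb₀δ⟩ : ∃ b₀ ∈ B, b₀ + (δ : ℤ) ∉ B := by
    by_contra hcon
    push Not at hcon
    have hmul : ∀ k : ℕ, ∀ b ∈ B, b + (k : ℤ) * δ ∈ B := by
      intro k
      induction k with
      | zero => intro b hb; simpa using hb
      | succ k ih =>
        intro b hb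
        have := hcon _ (ih b hb)
        have e : b + (k : ℤ) * δ + δ = b + ((k + 1 : ℕ) : ℤ) * δ := by push_cast; ring
        rwa [e] at this
    have hper : IsPeriod B δ := by
      refine ⟨hδpos, fun x => ⟨fun hx => ?_, fun hx => hcon x hx⟩⟩
      have h1 := hmul (q - 1) _ hx
      have e : x + (δ : ℤ) + ((q - 1 : ℕ) : ℤ) * δ = x + N := by
        have hq1 : ((q - 1 : ℕ) : ℤ) = q - 1 := by
          have := hq.one_lt; push_cast [Nat.cast_sub this.le]; ring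
        rw [hq1, hNδ]; push_cast; ring
      rw [e] at h1
      exact (hB.2 x).1 h1
    have hle : N ≤ δ := hmin.2 hper
    rw [hNδ] at hle
    have := hq.one_lt
    nlinarith
  -- step 2
  set P : ℕ := q ^ (f + 1) with hP
  have hPpos : 0 < P := pow_pos hq.pos _
  have hMP : Nat.Coprime M P := Nat.Coprime.pow_right _ hMq
  have hMPK : Nat.Coprime (M * P) K' :=
    Nat.Coprime.mul_left hMK (Nat.Coprime.pow_left _ hqK)
  have hMPA : ∀ p : ℕ, p.Prime → p ∣ A.card → p ∣ M * P := fun p hp hpa =>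
    (hMA p hp hpa).mul_right _
  have hB' : IsPeriod B (M * P * K') := by
    have e : M * P * K' = N := by rw [hN, hP]; ring
    rw [e]; exact hB
  set B₁ := Pool.Agent.TilePer.slice B (M * P) K' b₀ with hB₁
  have hT₁ : Tiles A B₁ := h.slice hB' hMPK hMPA b₀
  have hP₁ : IsPeriod B₁ (M * P) := slice_period (by positivity) _
  have hb₀' : b₀ ∈ B₁ := ⟨b₀, hb₀, Int.ModEq.refl _, Int.ModEq.refl _⟩
  have hδK : (δ : ℤ) ≡ 0 [ZMOD K'] := by
    rw [Int.modEq_zero_iff_dvd]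
    exact ⟨(M * q ^ f : ℕ), by rw [hδ]; push_cast; ring⟩
  have hδM : (δ : ℤ) ≡ 0 [ZMOD M] := by
    rw [Int.modEq_zero_iff_dvd]
    exact ⟨(q ^ f * K' : ℕ), by rw [hδ]; push_cast; ring⟩
  have hb₀δ' : b₀ + (δ : ℤ) ∉ B₁ := by
    rintro ⟨b, hb, h1, h2⟩
    apply hb₀δ
    have h3 : b ≡ b₀ + δ [ZMOD K'] := by
      have := (Int.ModEq.refl (n := (K' : ℤ)) b₀).add hδK
      rw [add_zero] at this
      exact h2.trans this.symm
    have h4 := intModEq_mul_of_coprime hMPK h1 h3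
    exact (hB'.modEq h4).1 hb
  -- step 3
  set B₂ := Pool.Agent.TilePer.slice B₁ M P (b₀ + δ) with hB₂
  have hT₂ : Tiles A B₂ := hT₁.slice hP₁ hMP hMA _
  -- step 4
  obtain ⟨a', ha', b', hb', hb'1, hb'2⟩ := hT₂.exists (a + b₀)
  have hne : a' ≠ a := by
    rintro rfl
    apply hb₀δ'
    have e : a' + b₀ - a' = b₀ := by ring
    rw [e] at hb'1
    have h1 : b' ≡ b₀ + δ [ZMOD M] := by
      have := (Int.ModEq.refl (n := (M : ℤ)) b₀).add hδM
      rw [add_zero] at this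
      exact hb'1.trans this.symm
    have h2 := intModEq_mul_of_coprime hMP h1 hb'2
    exact (hP₁.modEq h2).1 hb'
  refine ⟨a', ha', hne, ?_⟩
  intro a₁ ha₁ a₂ ha₂ hgcd
  by_contra hX
  obtain ⟨c₁, hc₁M, hc₁⟩ := exists_unit_mul hM hgcd
  have hPδ : ((q ^ f : ℕ) : ℤ) ∣ (δ : ℤ) := ⟨(M * K' : ℕ), by rw [hδ]; push_cast; ring⟩
  obtain ⟨c₂, hc₂⟩ := exists_mul_pow hq hX hPδ
  obtain ⟨c, hc0, hcM, hcP⟩ := exists_crt hMP hM hPpos c₁ c₂
  have hcop : Nat.Coprime c M := by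
    have h1 : c ≡ c₁ [MOD M] := (Int.natCast_modEq_iff).1 hcM
    have := h1.gcd_eq
    unfold Nat.Coprime
    rw [this]; exact hc₁M
  have hcA := coprime_of_primes hMA hcop
  have hT := hT₁.tijdeman hP₁ hc0 hcA
  -- c (a₁ - a₂) ≡ b' - b₀ mod M and mod P
  have e1 : (c : ℤ) * (a₁ - a₂) ≡ b' - b₀ [ZMOD M] := by
    have h1 : (c : ℤ) * (a₁ - a₂) ≡ a - a' [ZMOD M] := (hcM.mul_right _).trans hc₁
    have h2 : b' - b₀ ≡ (a + b₀ - a') - b₀ [ZMOD M] := hb'1.sub (Int.ModEq.refl _)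
    have e : (a + b₀ - a') - b₀ = a - a' := by ring
    rw [e] at h2
    exact h1.trans h2.symm
  have e2 : (c : ℤ) * (a₁ - a₂) ≡ b' - b₀ [ZMOD P] := by
    have h1 : (c : ℤ) * (a₁ - a₂) ≡ δ [ZMOD P] := (hcP.mul_right _).trans hc₂
    have h2 : b' - b₀ ≡ (b₀ + δ) - b₀ [ZMOD P] := hb'2.sub (Int.ModEq.refl _)
    have e : (b₀ + (δ : ℤ)) - b₀ = δ := by ring
    rw [e] at h2
    exact h1.trans h2.symm
  have e3 := intModEq_mul_of_coprime hMP e1 e2
  obtain ⟨k, hk⟩ := e3.dvd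
  have hfin := hT.unique (Finset.mem_image_of_mem (fun a => (c : ℤ) * a) ha₁)
    (Finset.mem_image_of_mem (fun a => (c : ℤ) * a) ha₂)
    (b := b₀ + k * ((M * P : ℕ) : ℤ)) (b' := b') ((hP₁.int k b₀).2 hb₀') hb' (by
      linear_combination -hk)
  have hc0' : (c : ℤ) ≠ 0 := by exact_mod_cast hc0.ne'
  have h12 : a₁ = a₂ := mul_left_cancel₀ hc0' hfin
  apply hX
  rw [h12]; simp

end Pool.Agent.TilePer
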